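import Mathlib
import Pool.Agent.Lib.MP_bdf388_an.Defs

set_option autoImplicit false

/-! The classes of mixed smoothness with an arbitrary phase in each variable. -/

namespace Pool.Agent.Lib.MP_bdf388_an

open MeasureTheory
open scoped Real ENNReal

/-- The univariate Bernoulli kernel of smoothness `r` and phase `a`. -/
noncomputable def phaseKernel (r a : ℝ) : AddCircle (2 * π) → ℝ :=
  AddCircle.liftIco (2 * π) 0 fun t =>
    1 + 2 * ∑' k : ℕ, ((k : ℝ) + 1) ^ (-r) * Real.cos (((k : ℝ) + 1) * t - a * π / 2)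

/-- The multivariate Bernoulli kernel with phase `α j` in the variable `j`. -/
noncomputable def phaseMixed (d : ℕ) (r : ℝ) (α : Fin d → ℝ) (x : Torus d) : ℝ :=
  ∏ j, phaseKernel r (α j) (x j)

/-- The class of convolutions of the kernel with functions of the unit ball of `L_p`. -/
def phaseClass (d : ℕ) (r : ℝ) (α : Fin d → ℝ) (p : ℝ≥0∞) : Set (Torus d → ℂ) :=
  {f | ∃ φ : Torus d → ℂ, MemLp φ p (torusMeasure d) ∧ eLpNorm φ p (torusMeasure d) ≤ 1 ∧
    f = fun x => ∫ y, (phaseMixed d r α (x - y) : ℂ) * φ y ∂(torusMeasure d)}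

/-- There are positive weights `c J`, one for each set `J` of variables, such that the sum of
`c J * ∏_{j ∈ J} exp (i π α_j)` over the sets `J` containing `I` vanishes whenever `I` has fewer
than `M` elements. -/
def PhaseAdmissible {d : ℕ} (α : Fin d → ℝ) (M : ℕ) : Prop :=
  ∃ c : Finset (Fin d) → ℝ, (∀ J, 0 < c J) ∧ ∀ I : Finset (Fin d), I.card < M →
    ∑ J : Finset (Fin d) with I ⊆ J,
      (c J : ℂ) * ∏ j ∈ J, Complex.exp (π * α j * Complex.I) = 0

open Classical in
/-- The largest admissible `M ≤ d - 1`. -/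
noncomputable def phaseGain {d : ℕ} (α : Fin d → ℝ) : ℕ :=
  Nat.findGreatest (PhaseAdmissible α) (d - 1)

end Pool.Agent.Lib.MP_bdf388_an
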