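import Mathlib
import Pool.Agent.Lib.MP_bdf388_an.Basic
import Pool.Agent.Lib.MP_bdf388_an.Ph.Defs

set_option autoImplicit false

/-! The Fourier expansion of the kernel with arbitrary phases. -/

namespace Pool.Agent.Lib.MP_bdf388_an.Ph

open MeasureTheory Filter Topology
open scoped Real ENNReal ComplexConjugate

/-- Fourier coefficients of the univariate kernel. -/
noncomputable def a1 (r pa : ℝ) (k : ℤ) : ℂ :=
  if k = 0 then 1 else (((k.natAbs : ℝ) ^ (-r) : ℝ) : ℂ) * (if 0 < k then om pa else conj (om pa))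

theorem a1_zero (r pa : ℝ) : a1 r pa 0 = 1 := by simp [a1]

theorem a1_pos (r pa : ℝ) {n : ℕ} (hn : 0 < n) :
    a1 r pa n = (((n : ℝ) ^ (-r) : ℝ) : ℂ) * om pa := by
  have : (n : ℤ) ≠ 0 := by omega
  have h2 : (0 : ℤ) < n := by omega
  simp only [a1, if_neg this, if_pos h2, Int.natAbs_natCast]

theorem a1_neg (r pa : ℝ) {n : ℕ} (hn : 0 < n) :
    a1 r pa (-n) = (((n : ℝ) ^ (-r) : ℝ) : ℂ) * conj (om pa) := by
  have : -(n : ℤ) ≠ 0 := by omega
  have h2 : ¬ (0 : ℤ) < -n := by omega
  simp only [a1, if_neg this, if_neg h2, Int.natAbs_neg, Int.natAbs_natCast]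

theorem norm_a1 (r pa : ℝ) {k : ℤ} (hk : k ≠ 0) : ‖a1 r pa k‖ = (k.natAbs : ℝ) ^ (-r) := by
  rw [a1, if_neg hk, norm_mul, Complex.norm_real, Real.norm_of_nonneg (by positivity)]
  split_ifs <;> simp [norm_om]

theorem summable_norm_a1 {r : ℝ} (hr : 1 < r) (pa : ℝ) : Summable (fun k : ℤ => ‖a1 r pa k‖) := by
  refine Summable.of_add_one_of_neg_add_one ?_ ?_
  · refine (summable_succ_rpow hr).congr (fun n => ?_)
    rw [norm_a1 r pa (by omega)]
    congr 1
    have : ((n : ℤ) + 1).natAbs = n + 1 := by omega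
    rw [this]; simp
  · refine (summable_succ_rpow hr).congr (fun n => ?_)
    rw [norm_a1 r pa (by omega)]
    congr 1
    have : (-((n : ℤ) + 1)).natAbs = n + 1 := by omega
    rw [this]; simp

theorem hasSum_bernoulli {r : ℝ} (hr : 1 < r) (pa : ℝ) (x : Circ) :
    HasSum (fun k : ℤ => a1 r pa k * fourier k x) (phaseKernel r pa x : ℂ) := by
  obtain ⟨t, ht, rfl⟩ : ∃ t ∈ Set.Ico 0 (0 + 2 * π), (t : Circ) = x :=
    ⟨_, (AddCircle.equivIco (2 * π) 0 x).2, by simp⟩
  rw [phaseKernel, AddCircle.liftIco_coe_apply ht]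
  let z : ℕ → ℂ := fun n => ((((n : ℝ) + 1) ^ (-r) : ℝ) : ℂ) *
    Complex.exp (((((n : ℝ) + 1) * t - pa * π / 2 : ℝ) : ℂ) * Complex.I)
  have hz : Summable z := by
    refine Summable.of_norm ((summable_succ_rpow hr).congr (fun n => ?_))
    simp only [z]
    rw [norm_mul, Complex.norm_exp_ofReal_mul_I, Complex.norm_real,
      Real.norm_of_nonneg (by positivity), mul_one]
  have h1 : ∀ n : ℕ, a1 r pa ((n : ℤ) + 1) * fourier ((n : ℤ) + 1) (t : Circ) = z n := by
    intro n
    have := a1_pos r pa (n := n + 1) (by omega)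
    push_cast at this
    rw [this, fourier_coe, om, mul_assoc, ← Complex.exp_add]
    simp only [z]
    congr 2
    push_cast
    ring
  have h2 : ∀ n : ℕ, a1 r pa (-((n : ℤ) + 1)) * fourier (-((n : ℤ) + 1)) (t : Circ) =
      conj (z n) := by
    intro n
    have h3 := a1_neg r pa (n := n + 1) (by omega)
    have h4 := a1_pos r pa (n := n + 1) (by omega)
    push_cast at h3 h4
    rw [← h1, h3, h4, fourier_neg]
    simp only [map_mul, Complex.conj_ofReal]
  have hs1 : HasSum (fun n : ℕ => a1 r pa ((n : ℤ) + 1) * fourier ((n : ℤ) + 1) (t : Circ))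
      (∑' n, z n) := by simpa only [h1] using hz.hasSum
  have hs2 : HasSum (fun n : ℕ => a1 r pa (-((n : ℤ) + 1)) * fourier (-((n : ℤ) + 1)) (t : Circ))
      (conj (∑' n, z n)) := by
    simp only [h2]
    exact (Complex.hasSum_conj').2 hz.hasSum
  have hs := HasSum.of_add_one_of_neg_add_one
    (f := fun k : ℤ => a1 r pa k * fourier k (t : Circ)) hs1 hs2
  convert hs using 1
  have hre : (∑' n, z n).re =
      ∑' k : ℕ, ((k : ℝ) + 1) ^ (-r) * Real.cos (((k : ℝ) + 1) * t - pa * π / 2) := by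
    rw [Complex.re_tsum hz]
    refine tsum_congr (fun n => ?_)
    simp only [z]
    rw [Complex.re_ofReal_mul, Complex.exp_ofReal_mul_I_re]
  rw [← hre, a1_zero, fourier_zero, add_right_comm, Complex.add_conj]
  push_cast
  ring

theorem continuous_bernoulli {r : ℝ} (hr : 1 < r) (pa : ℝ) :
    Continuous (fun x : Circ => (phaseKernel r pa x : ℂ)) := by
  have : (fun x : Circ => (phaseKernel r pa x : ℂ)) =
      fun x => ∑' k : ℤ, a1 r pa k * fourier k x := by
    funext x
    exact (hasSum_bernoulli hr pa x).tsum_eq.symm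
  rw [this]
  refine continuous_tsum (fun k => by fun_prop) (summable_norm_a1 hr pa) (fun k x => ?_)
  rw [norm_mul, norm_fourier, mul_one]

theorem integral_bernoulli_mul_conj {r : ℝ} (hr : 1 < r) (pa : ℝ) (l : ℤ) :
    ∫ t, (phaseKernel r pa t : ℂ) * conj (fourier l t) ∂μ1 = a1 r pa l := by
  have h := hasSum_integral_of_summable_integral_norm (μ := μ1)
    (F := fun (k : ℤ) (t : Circ) => a1 r pa k * fourier k t * conj (fourier l t))
    (fun k => integrable_of_continuous1 (by fun_prop)) (by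
      refine (summable_norm_a1 hr pa).congr (fun k => ?_)
      simp)
  have h2 : ∀ t : Circ, ∑' k : ℤ, a1 r pa k * fourier k t * conj (fourier l t) =
      (phaseKernel r pa t : ℂ) * conj (fourier l t) := fun t =>
    ((hasSum_bernoulli hr pa t).mul_right _).tsum_eq
  simp only [h2] at h
  have h3 : ∀ k : ℤ, ∫ t, a1 r pa k * fourier k t * conj (fourier l t) ∂μ1 =
      if k = l then a1 r pa l else 0 := by
    intro k
    simp only [mul_assoc]
    rw [integral_const_mul, integral_fourier_mul_conj]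
    split_ifs with h <;> simp [h]
  simp only [h3] at h
  exact h.unique (hasSum_ite_eq l (a1 r pa l))

/-- The kernel with complex values. -/
noncomputable def Fc (d : ℕ) (r : ℝ) (ph : Fin d → ℝ) (x : Torus d) : ℂ := (phaseMixed d r ph x : ℂ)

theorem Fc_eq (d : ℕ) (r : ℝ) (ph : Fin d → ℝ) (x : Torus d) :
    Fc d r ph x = ∏ j, (phaseKernel r (ph j) (x j) : ℂ) := by
  simp [Fc, phaseMixed]

theorem continuous_Fc (d : ℕ) (ph : Fin d → ℝ) {r : ℝ} (hr : 1 < r) : Continuous (Fc d r ph) := by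
  have : Fc d r ph = fun x => ∏ j, (phaseKernel r (ph j) (x j) : ℂ) := funext (Fc_eq d r ph)
  rw [this]
  exact continuous_finsetProd _ (fun j _ => (continuous_bernoulli hr (ph j)).comp (continuous_apply j))

/-- Fourier coefficients of the multivariate kernel. -/
noncomputable def Ak {d : ℕ} (r : ℝ) (ph : Fin d → ℝ) (k : Fin d → ℤ) : ℂ := ∏ j, a1 r (ph j) (k j)

theorem integral_Fc_mul_conj (d : ℕ) (ph : Fin d → ℝ) {r : ℝ} (hr : 1 < r) (k : Fin d → ℤ) :
    ∫ x, Fc d r ph x * conj (ek k x) ∂(torusMeasure d) = Ak r ph k := by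
  simp only [Fc_eq, ek, map_prod, ← Finset.prod_mul_distrib]
  unfold torusMeasure
  rw [integral_fintype_prod_eq_prod
    (fun j (t : Circ) => (phaseKernel r (ph j) t : ℂ) * conj (fourier (k j) t))]
  simp only [integral_bernoulli_mul_conj hr, Ak]

theorem conv_ek (d : ℕ) (ph : Fin d → ℝ) {r : ℝ} (hr : 1 < r) (k : Fin d → ℤ) (x : Torus d) :
    ∫ y, Fc d r ph (x - y) * ek k y ∂(torusMeasure d) = Ak r ph k * ek k x := by
  rw [← integral_sub_left_eq_self _ _ x]
  simp only [sub_sub_cancel, ek_sub]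
  rw [← integral_Fc_mul_conj d ph hr, ← integral_mul_const]
  congr 1
  funext y
  ring

theorem shift_Fc_coeff (d : ℕ) (ph : Fin d → ℝ) {r : ℝ} (hr : 1 < r) (k : Fin d → ℤ) (y : Torus d) :
    ∫ z, Fc d r ph (z - y) * conj (ek k z) ∂(torusMeasure d) = Ak r ph k * conj (ek k y) := by
  rw [← integral_add_right_eq_self _ y]
  simp only [add_sub_cancel_right, ek_add, map_mul]
  rw [← integral_Fc_mul_conj d ph hr, ← integral_mul_const]
  congr 1
  funext y
  ring

end Pool.Agent.Lib.MP_bdf388_an.Ph
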