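import Mathlib
import Pool.Agent.Lib.MP_bdf388_an.Poly
import Pool.Agent.Lib.MP_bdf388_an.Ph.Defs

set_option autoImplicit false

/-! The algebraic alternative for arbitrary phases: positive weights or a certificate. -/

namespace Pool.Agent.Lib.MP_bdf388_an.Ph

open Finset Polynomial
open scoped Real

variable {d : ℕ}

/-- The product of the roots over a set of variables. -/
noncomputable def zJ (ph : Fin d → ℝ) (J : Finset (Fin d)) : ℂ := ∏ j ∈ J, zr (ph j)

theorem exists_weights {M : ℕ} {ph : Fin d → ℝ} (h : PhaseAdmissible ph M) :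
    ∃ c : Finset (Fin d) → ℝ, (∀ J, 0 < c J) ∧ ∀ I : Finset (Fin d), I.card < M →
      ∑ J : Finset (Fin d) with I ⊆ J, (c J : ℂ) * zJ ph J = 0 := h

theorem exists_certificate {M : ℕ} {ph : Fin d → ℝ} (h : ¬ PhaseAdmissible ph (M + 1)) :
    ∃ q : Finset (Fin d) → ℂ, (∀ I, M < I.card → q I = 0) ∧
      (∀ J, 0 ≤ (zJ ph J * ∑ I ∈ J.powerset, q I).re) ∧
      ∃ J, 0 < (zJ ph J * ∑ I ∈ J.powerset, q I).re := by
  let L : (Finset (Fin d) → ℂ) →ₗ[ℝ] (Finset (Fin d) → ℝ) :=
    { toFun := fun q J => (zJ ph J * ∑ I ∈ J.powerset, if I.card ≤ M then q I else 0).re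
      map_add' := by
        intro q q'
        funext J
        simp only [Pi.add_apply]
        rw [← Complex.add_re, ← mul_add, ← sum_add_distrib]
        congr 2
        refine sum_congr rfl (fun I _ => ?_)
        split_ifs <;> simp
      map_smul' := by
        intro t q
        funext J
        simp only [Pi.smul_apply, Complex.real_smul, RingHom.id_apply, smul_eq_mul]
        rw [← Complex.re_ofReal_mul, mul_sum, mul_sum, mul_sum]
        congr 1
        refine sum_congr rfl (fun I _ => ?_)
        split_ifs
        · ring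
        · simp }
  by_cases hdisj : Disjoint (LinearMap.range L : Set (Finset (Fin d) → ℝ))
    (stdSimplex ℝ (Finset (Fin d)))
  · exfalso
    obtain ⟨f, u, v, hu, huv, hv⟩ := geometric_hahn_banach_closed_compact
      (LinearMap.range L).convex (LinearMap.range L).closed_of_finiteDimensional
      (convex_stdSimplex ℝ _) (isCompact_stdSimplex ℝ _) hdisj
    have hu0 : 0 < u := by simpa using hu 0 (LinearMap.range L).zero_mem
    have hf0 : ∀ y ∈ LinearMap.range L, f y = 0 := by
      intro y hy
      by_contra hne
      have := hu ((u / f y) • y) ((LinearMap.range L).smul_mem _ hy)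
      rw [map_smul, smul_eq_mul, div_mul_cancel₀ _ hne] at this
      exact lt_irrefl _ this
    let w : Finset (Fin d) → ℝ := fun J => f (Pi.single J 1)
    have hw : ∀ J, 0 < w J := fun J =>
      (hu0.trans huv).trans (hv _ (single_mem_stdSimplex ℝ J))
    have hf : ∀ y : Finset (Fin d) → ℝ, f y = ∑ J, y J * w J := by
      intro y
      conv_lhs => rw [pi_eq_sum_univ' y]
      simp only [map_sum, map_smul, smul_eq_mul, w]
    refine h ⟨w, hw, fun I hI => ?_⟩
    change ∑ J : Finset (Fin d) with I ⊆ J, (w J : ℂ) * zJ ph J = 0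
    have key : ∀ t : ℂ, (t * ∑ J : Finset (Fin d) with I ⊆ J, (w J : ℂ) * zJ ph J).re = 0 := by
      intro t
      have h1 := hf0 _ ⟨Pi.single I t, rfl⟩
      rw [hf] at h1
      rw [← h1, mul_sum, Complex.re_sum, sum_filter]
      refine sum_congr rfl (fun J _ => ?_)
      have h2 : ∑ I' ∈ J.powerset, (if I'.card ≤ M then (Pi.single I t : _ → ℂ) I' else 0) =
          if I ⊆ J then t else 0 := by
        rw [sum_congr rfl (g := fun I' => if I' = I then t else 0), sum_ite_eq']
        · simp only [mem_powerset]
        · intro I' _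
          by_cases h3 : I' = I
          · rw [h3, if_pos (by omega), if_pos rfl, Pi.single_eq_same]
          · rw [Pi.single_eq_of_ne h3, if_neg h3, ite_self]
      simp only [L, LinearMap.coe_mk, AddHom.coe_mk, h2]
      split_ifs
      · rw [← Complex.re_mul_ofReal]
        congr 1
        ring
      · simp
    apply Complex.ext
    · simpa using key 1
    · have := key (-Complex.I)
      simpa using this
  · rw [Set.not_disjoint_iff] at hdisj
    obtain ⟨y, ⟨q, rfl⟩, hy⟩ := hdisj
    refine ⟨fun I => if I.card ≤ M then q I else 0, fun I hI => if_neg (by omega),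
      fun J => hy.1 J, ?_⟩
    by_contra hcon
    push Not at hcon
    have h1 : ∑ J, L q J ≤ 0 := sum_nonpos (fun J _ => hcon J)
    rw [hy.2] at h1
    linarith

theorem admissible_zero (ph : Fin d → ℝ) : PhaseAdmissible ph 0 :=
  ⟨fun _ => 1, fun _ => one_pos, fun _ h => absurd h (Nat.not_lt_zero _)⟩

theorem phaseGain_le (ph : Fin d → ℝ) : phaseGain ph ≤ d - 1 := by
  classical
  exact Nat.findGreatest_le _

theorem admissible_phaseGain (ph : Fin d → ℝ) : PhaseAdmissible ph (phaseGain ph) := by
  classical
  exact Nat.findGreatest_spec (Nat.zero_le _) (admissible_zero ph)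

theorem not_admissible_succ {ph : Fin d → ℝ} (h : phaseGain ph < d - 1) :
    ¬ PhaseAdmissible ph (phaseGain ph + 1) := by
  classical
  exact Nat.findGreatest_is_greatest (Nat.lt_succ_self _) h

theorem zJ_const (a : ℝ) (J : Finset (Fin d)) : zJ (fun _ => a) J = zr a ^ J.card := by
  simp [zJ]

theorem phaseAdmissible_const (a : ℝ) (M : ℕ) :
    PhaseAdmissible (fun _ : Fin d => a) M ↔ Admissible d a M := by
  constructor
  · intro h
    obtain ⟨c, hc, h0⟩ := exists_weights h
    simp only [zJ_const] at h0
    let p : ℝ[X] := ∑ J : Finset (Fin d), monomial J.card (c J)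
    have hcoeff : ∀ j, p.coeff j = ∑ J : Finset (Fin d), if J.card = j then c J else 0 := by
      intro j
      simp only [p, finsetSum_coeff, coeff_monomial]
    have hle : p.natDegree ≤ d := by
      refine natDegree_sum_le_of_forall_le _ _ (fun J _ => ?_)
      exact (natDegree_monomial_le _).trans (by simpa using card_le_univ J)
    have hpos : ∀ j ≤ d, 0 < p.coeff j := by
      intro j hj
      obtain ⟨J, -, hJ⟩ := exists_subset_card_eq (s := (univ : Finset (Fin d))) (n := j)
        (by simpa using hj)
      rw [hcoeff]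
      refine sum_pos' (fun J _ => ?_) ⟨J, mem_univ _, by rw [if_pos hJ]; exact hc J⟩
      split_ifs
      · exact (hc J).le
      · exact le_rfl
    have hdeg : p.natDegree = d := le_antisymm hle (le_natDegree_of_ne_zero (hpos d le_rfl).ne')
    have hp0 : p.map (algebraMap ℝ ℂ) ≠ 0 := by
      rw [Ne, Polynomial.map_eq_zero]
      intro h1
      have := hpos 0 (Nat.zero_le _)
      simp [h1] at this
    refine ⟨p, hdeg, hpos, ?_⟩
    rw [root_iff (d := d) (Complex.exp_ne_zero _) _ hp0 (by rw [natDegree_map, hdeg])]
    intro b hb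
    change ∑ j ∈ range (d + 1), (p.map (algebraMap ℝ ℂ)).coeff j * zr a ^ j * (j.choose b : ℂ) = 0
    have h1 : ∑ j ∈ range (d + 1), (p.map (algebraMap ℝ ℂ)).coeff j * zr a ^ j * (j.choose b : ℂ) =
        ∑ J : Finset (Fin d), (c J : ℂ) * zr a ^ J.card * (J.card.choose b : ℂ) := by
      simp only [coeff_map, hcoeff, Complex.coe_algebraMap, Complex.ofReal_sum, sum_mul]
      rw [sum_comm]
      refine sum_congr rfl (fun J _ => ?_)
      rw [sum_eq_single J.card]
      · simp
      · intro j _ hj
        simp [hj.symm]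
      · intro hj
        exact absurd (mem_range.2 (by simpa [Nat.lt_succ_iff] using card_le_univ J)) hj
    have h2 : ∑ J : Finset (Fin d), (c J : ℂ) * zr a ^ J.card * (J.card.choose b : ℂ) =
        ∑ I ∈ powersetCard b (univ : Finset (Fin d)),
          ∑ J : Finset (Fin d) with I ⊆ J, (c J : ℂ) * zr a ^ J.card := by
      simp only [sum_filter]
      rw [sum_comm]
      refine sum_congr rfl (fun J _ => ?_)
      rw [← sum_filter, sum_const, nsmul_eq_mul, mul_comm, ← card_powersetCard]
      congr 3
      ext I
      simp [mem_powersetCard, and_comm]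
    rw [h1, h2]
    exact sum_eq_zero (fun I hI => h0 I (by rw [(mem_powersetCard.1 hI).2]; exact hb))
  · intro h
    obtain ⟨c, hc, h0⟩ := Pool.Agent.Lib.MP_bdf388_an.exists_weights h
    refine ⟨fun J => c J.card, fun J => hc _ (by simpa using card_le_univ J), fun I hI => ?_⟩
    change ∑ J : Finset (Fin d) with I ⊆ J, (c J.card : ℂ) * zJ (fun _ => a) J = 0
    simp only [zJ_const]
    exact h0 I hI

theorem phaseGain_const (a : ℝ) : phaseGain (fun _ : Fin d => a) = logGain d a := by
  classical
  refine le_antisymm (Nat.le_findGreatest (phaseGain_le _) ?_)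
    (Nat.le_findGreatest (logGain_le d a) ?_)
  · exact (phaseAdmissible_const a _).1 (admissible_phaseGain _)
  · exact (phaseAdmissible_const a _).2 (admissible_logGain d a)

end Pool.Agent.Lib.MP_bdf388_an.Ph
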