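import Mathlib
import Pool.Agent.Lib.MP_bdf388_an.Ph.Lower
import Pool.Agent.Lib.MP_bdf388_an.Seq

set_option autoImplicit false

/-! Estimates for dyadic blocks in one variable. -/

namespace Pool.Agent.Lib.MP_bdf388_an.Ph

open Finset Polynomial Filter Topology
open scoped Real ComplexConjugate

/-- The number `2 ^ (1 - r)`. -/
noncomputable def lam (r : ℝ) : ℝ := 2 * rho r

theorem lam_pos (r : ℝ) : 0 < lam r := mul_pos two_pos (rho_pos r)

theorem lam_lt_one {r : ℝ} (hr : 1 < r) : lam r < 1 := by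
  have h : (2 : ℝ) ^ (-r) < (2 : ℝ) ^ (-1 : ℝ) :=
    Real.rpow_lt_rpow_of_exponent_lt (by norm_num) (by linarith)
  rw [Real.rpow_neg_one] at h
  rw [lam, rho]
  linarith

/-- Normalised block sums. -/
noncomputable def sg (r : ℝ) (q : ℂ) (t : ℕ) : ℂ :=
  (((lam r ^ (t + 1))⁻¹ : ℝ) : ℂ) * ∑ k ∈ Ico (2 ^ t : ℕ) (2 * 2 ^ t), (((k : ℝ) ^ (-r) : ℝ) : ℂ) * q ^ k

theorem rpow_anti {r : ℝ} (hr : 1 < r) {a b : ℕ} (ha : 0 < a) (hab : a ≤ b) :
    (b : ℝ) ^ (-r) ≤ (a : ℝ) ^ (-r) :=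
  Real.rpow_le_rpow_of_nonpos (by exact_mod_cast ha) (by exact_mod_cast hab) (by linarith)

theorem natpow_rpow (r : ℝ) (t : ℕ) : ((2 ^ t : ℕ) : ℝ) ^ (-r) = rho r ^ t := by
  rw [← two_pow_rpow]
  simp

theorem sum_block_le {r : ℝ} (hr : 1 < r) (t : ℕ) :
    ∑ k ∈ Ico (2 ^ t : ℕ) (2 * 2 ^ t), (k : ℝ) ^ (-r) ≤ lam r ^ t := by
  refine (sum_le_card_nsmul _ _ (rho r ^ t) (fun k hk => ?_)).trans (le_of_eq ?_)
  · rw [← natpow_rpow]
    exact rpow_anti hr (by positivity) (mem_Ico.1 hk).1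
  · rw [Nat.card_Ico, lam, mul_pow, nsmul_eq_mul]
    congr 1
    have : 2 * 2 ^ t - 2 ^ t = 2 ^ t := by omega
    rw [this]
    simp

theorem norm_sg_aux {r : ℝ} (hr : 1 < r) (t : ℕ) (z : ℕ → ℂ) {K : ℝ} (hK : 0 ≤ K)
    (hz : ∀ k ∈ Ico (2 ^ t : ℕ) (2 * 2 ^ t), ‖z k‖ ≤ K) :
    ‖(((lam r ^ (t + 1))⁻¹ : ℝ) : ℂ) *
      ∑ k ∈ Ico (2 ^ t : ℕ) (2 * 2 ^ t), (((k : ℝ) ^ (-r) : ℝ) : ℂ) * z k‖ ≤ (lam r)⁻¹ * K := by
  have hl := lam_pos r
  rw [norm_mul, Complex.norm_real, Real.norm_of_nonneg (by positivity)]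
  have h1 : ‖∑ k ∈ Ico (2 ^ t : ℕ) (2 * 2 ^ t), (((k : ℝ) ^ (-r) : ℝ) : ℂ) * z k‖ ≤ lam r ^ t * K := by
    refine (norm_sum_le _ _).trans ?_
    calc _ ≤ ∑ k ∈ Ico (2 ^ t : ℕ) (2 * 2 ^ t), (k : ℝ) ^ (-r) * K := by
          refine sum_le_sum (fun k hk => ?_)
          rw [norm_mul, Complex.norm_real, Real.norm_of_nonneg (by positivity)]
          exact mul_le_mul_of_nonneg_left (hz k hk) (by positivity)
      _ ≤ _ := by
          rw [← sum_mul]
          exact mul_le_mul_of_nonneg_right (sum_block_le hr t) hK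
  refine (mul_le_mul_of_nonneg_left h1 (by positivity)).trans (le_of_eq ?_)
  field_simp
  ring

theorem norm_sg_le {r : ℝ} (hr : 1 < r) {q : ℂ} (hq : ‖q‖ = 1) (t : ℕ) :
    ‖sg r q t‖ ≤ (lam r)⁻¹ := by
  have := norm_sg_aux hr t (fun k => q ^ k) zero_le_one (fun k _ => by simp [hq])
  rwa [mul_one] at this

theorem norm_pow_sub_one {q : ℂ} (hq : ‖q‖ = 1) (k : ℕ) : ‖q ^ k - 1‖ ≤ k * ‖q - 1‖ := by
  induction k with
  | zero => simp
  | succ k ih =>
    have : q ^ (k + 1) - 1 = q * (q ^ k - 1) + (q - 1) := by ring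
    rw [this]
    refine (norm_add_le _ _).trans ?_
    rw [norm_mul, hq]
    push_cast
    linarith

theorem norm_sg_sub_one {r : ℝ} (hr : 1 < r) {q : ℂ} (hq : ‖q‖ = 1) (t : ℕ) :
    ‖sg r q t - sg r 1 t‖ ≤ (lam r)⁻¹ * (2 * (2 ^ t * ‖q - 1‖)) := by
  have h := norm_sg_aux hr t (fun k => q ^ k - 1) (K := 2 * (2 ^ t * ‖q - 1‖)) (by positivity)
    (fun k hk => (norm_pow_sub_one hq k).trans (by
      rw [← mul_assoc]
      gcongr
      exact_mod_cast (mem_Ico.1 hk).2.le))
  convert h using 2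
  simp only [sg, one_pow, mul_sub, sum_sub_distrib]

theorem abel_bound (w : ℕ → ℝ) {q : ℂ} (hq : ‖q‖ = 1) {a : ℕ} (hw0 : ∀ k, 0 ≤ w k)
    (hw : ∀ k, a ≤ k → w (k + 1) ≤ w k) {b : ℕ} (hab : a ≤ b) :
    ‖q - 1‖ * ‖∑ k ∈ Ico a b, (w k : ℂ) * q ^ k‖ ≤ 2 * w a := by
  have key : ∀ b, a ≤ b →
      ‖(q - 1) * ∑ k ∈ Ico a b, (w k : ℂ) * q ^ k - w b * q ^ b‖ ≤ 2 * w a - w b := by
    intro b hb
    induction b, hb using Nat.le_induction with
    | base =>
      simp only [Ico_self, sum_empty, mul_zero, zero_sub, norm_neg, norm_mul, norm_pow, hq,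
        one_pow, mul_one, Complex.norm_real, Real.norm_of_nonneg (hw0 a)]
      linarith
    | succ b hb ih =>
      rw [sum_Ico_succ_top hb]
      have : (q - 1) * (∑ k ∈ Ico a b, (w k : ℂ) * q ^ k + w b * q ^ b) - w (b + 1) * q ^ (b + 1) =
          ((q - 1) * ∑ k ∈ Ico a b, (w k : ℂ) * q ^ k - w b * q ^ b) +
            ((w b - w (b + 1) : ℝ) : ℂ) * q ^ (b + 1) := by
        push_cast
        ring
      rw [this]
      refine (norm_add_le _ _).trans ?_
      rw [norm_mul, norm_pow, hq, one_pow, mul_one, Complex.norm_real,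
        Real.norm_of_nonneg (sub_nonneg.2 (hw b hb))]
      linarith
  have h1 := key b hab
  have h2 := norm_le_norm_sub_add ((q - 1) * ∑ k ∈ Ico a b, (w k : ℂ) * q ^ k) (w b * q ^ b)
  rw [norm_mul (w b : ℂ), norm_pow, hq, one_pow, mul_one, Complex.norm_real,
    Real.norm_of_nonneg (hw0 b), norm_mul] at h2
  linarith

theorem mul_norm_sg_le {r : ℝ} (hr : 1 < r) {q : ℂ} (hq : ‖q‖ = 1) (t : ℕ) :
    (2 ^ t * ‖q - 1‖) * ‖sg r q t‖ ≤ (lam r)⁻¹ * 2 := by
  have hl := lam_pos r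
  have h := abel_bound (fun k => (k : ℝ) ^ (-r)) hq (a := 2 ^ t) (fun k => by positivity)
    (fun k hk => rpow_anti hr (lt_of_lt_of_le (by positivity) hk) (Nat.le_succ k))
    (b := 2 * 2 ^ t) (by omega)
  rw [natpow_rpow] at h
  rw [sg, norm_mul, Complex.norm_real, Real.norm_of_nonneg (by positivity)]
  calc _ = (2 ^ t * (lam r ^ (t + 1))⁻¹) * (‖q - 1‖ *
        ‖∑ k ∈ Ico (2 ^ t : ℕ) (2 * 2 ^ t), (((k : ℝ) ^ (-r) : ℝ) : ℂ) * q ^ k‖) := by ring
    _ ≤ (2 ^ t * (lam r ^ (t + 1))⁻¹) * (2 * rho r ^ t) := by gcongr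
    _ = _ := by
        have := rho_pos r
        rw [pow_succ, lam, mul_pow]
        field_simp

theorem sum_Ico_double (f : ℕ → ℝ) {a b : ℕ} (hab : a ≤ b) :
    ∑ k ∈ Ico (2 * a) (2 * b), f k = ∑ k ∈ Ico a b, (f (2 * k) + f (2 * k + 1)) := by
  induction b, hab using Nat.le_induction with
  | base => simp
  | succ b hb ih =>
    rw [sum_Ico_succ_top hb, ← ih, show 2 * (b + 1) = 2 * b + 1 + 1 by ring,
      sum_Ico_succ_top (by omega), sum_Ico_succ_top (by omega), add_assoc]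

theorem norm_sg_one_succ {r : ℝ} (hr : 1 < r) (t : ℕ) :
    ‖sg r 1 (t + 1) - sg r 1 t‖ ≤ (lam r)⁻¹ * (1 / 2) ^ (t + 1) := by
  have hl := lam_pos r
  let f : ℕ → ℝ := fun k => (k : ℝ) ^ (-r)
  have h1 : sg r 1 (t + 1) - sg r 1 t = ((-((lam r ^ (t + 2))⁻¹ *
      ∑ k ∈ Ico (2 ^ t : ℕ) (2 * 2 ^ t), (f (2 * k) - f (2 * k + 1))) : ℝ) : ℂ) := by
    simp only [sg, one_pow, mul_one, ← Complex.ofReal_sum, ← Complex.ofReal_mul,
      ← Complex.ofReal_sub]
    congr 1
    rw [pow_succ' 2 t, sum_Ico_double f (by omega)]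
    have h2 : ∑ k ∈ Ico (2 ^ t : ℕ) (2 * 2 ^ t), (k : ℝ) ^ (-r) =
        (lam r)⁻¹ * ∑ k ∈ Ico (2 ^ t : ℕ) (2 * 2 ^ t), 2 * f (2 * k) := by
      rw [mul_sum]
      refine sum_congr rfl (fun k _ => ?_)
      have := rho_pos r
      simp only [f]
      push_cast
      rw [Real.mul_rpow (by norm_num) (by positivity), lam, ← rho]
      field_simp
    rw [h2, sum_add_distrib, sum_sub_distrib, ← mul_sum]
    field_simp
    ring
  have h3 : ∀ b, 2 ^ t ≤ b → ∑ k ∈ Ico (2 ^ t) b, (f (2 * k) - f (2 * k + 1)) ≤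
      f (2 * 2 ^ t) - f (2 * b) := by
    intro b hb
    induction b, hb using Nat.le_induction with
    | base => simp
    | succ b hb ih =>
      rw [sum_Ico_succ_top hb]
      have : f (2 * (b + 1)) ≤ f (2 * b + 1) := rpow_anti hr (by omega) (by omega)
      linarith
  have h4 : 0 ≤ ∑ k ∈ Ico (2 ^ t : ℕ) (2 * 2 ^ t), (f (2 * k) - f (2 * k + 1)) := by
    refine sum_nonneg (fun k hk => sub_nonneg.2 (rpow_anti hr ?_ (by omega)))
    have := (mem_Ico.1 hk).1
    have h5 : 0 < 2 ^ t := by positivity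
    omega
  have h5 : f (2 * 2 ^ t) = rho r ^ (t + 1) := by
    rw [← natpow_rpow, pow_succ']
  have h6 : 0 ≤ f (2 * (2 * 2 ^ t)) := by positivity
  rw [h1, Complex.norm_real, norm_neg, Real.norm_of_nonneg (by positivity)]
  calc _ ≤ (lam r ^ (t + 2))⁻¹ * rho r ^ (t + 1) := by
        gcongr
        linarith [h3 (2 * 2 ^ t) (by omega)]
    _ = _ := by
        have := rho_pos r
        rw [pow_succ (lam r) (t + 1), lam, mul_pow, one_div, inv_pow]
        field_simp

theorem le_bump {X y C : ℝ} (hy : 0 ≤ y) (hC : 0 ≤ C) (h1 : X ≤ C * y) (h2 : y * X ≤ C) :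
    X ≤ 6 * C * (y / ((1 + y) * (1 + 2 * y))) := by
  rw [← mul_div_assoc, le_div_iff₀ (by positivity)]
  rcases le_total y 1 with h | h
  · calc X * ((1 + y) * (1 + 2 * y)) ≤ C * y * ((1 + y) * (1 + 2 * y)) := by gcongr
      _ ≤ C * y * 6 := by gcongr; nlinarith
      _ = _ := by ring
  · rcases le_total X 0 with hX | hX
    · exact (mul_nonpos_of_nonpos_of_nonneg hX (by positivity)).trans (by positivity)
    · calc X * ((1 + y) * (1 + 2 * y)) ≤ X * (6 * y * y) :=
          mul_le_mul_of_nonneg_left (by nlinarith) hX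
        _ = 6 * y * (y * X) := by ring
        _ ≤ 6 * y * C := by gcongr
        _ = _ := by ring

theorem sum_bump_le {δ : ℝ} (hδ : 0 ≤ δ) (U : ℕ) :
    ∑ t ∈ range U, (2 ^ t * δ) / ((1 + 2 ^ t * δ) * (1 + 2 * (2 ^ t * δ))) ≤ 1 := by
  have h : ∑ t ∈ range U, (2 ^ t * δ) / ((1 + 2 ^ t * δ) * (1 + 2 * (2 ^ t * δ))) =
      1 / (1 + δ) - 1 / (1 + 2 ^ U * δ) := by
    induction U with
    | zero => simp
    | succ U ih =>
      rw [sum_range_succ, ih, pow_succ]
      field_simp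
      ring
  rw [h]
  have h1 : 1 / (1 + δ) ≤ 1 := by rw [div_le_one (by positivity)]; linarith
  have h2 : 0 ≤ 1 / (1 + 2 ^ U * δ) := by positivity
  linarith

theorem sum_sg_conj {r : ℝ} (hr : 1 < r) {q : ℂ} (hq : ‖q‖ = 1) (U : ℕ) :
    ∑ t ∈ range U, ‖sg r (conj q) t - sg r q t‖ ≤ 24 * (lam r)⁻¹ := by
  have hl := lam_pos r
  have hq' : ‖conj q‖ = 1 := by rw [Complex.norm_conj, hq]
  have hδ : ‖conj q - 1‖ = ‖q - 1‖ := by
    rw [← Complex.norm_conj (q - 1), map_sub, map_one]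
  calc _ ≤ ∑ t ∈ range U, 6 * (4 * (lam r)⁻¹) * ((2 ^ t * ‖q - 1‖) /
        ((1 + 2 ^ t * ‖q - 1‖) * (1 + 2 * (2 ^ t * ‖q - 1‖)))) := by
        refine sum_le_sum (fun t _ => le_bump (by positivity) (by positivity) ?_ ?_)
        · have h1 := norm_sg_sub_one hr hq t
          have h2 := norm_sg_sub_one hr hq' t
          rw [hδ] at h2
          have h3 := norm_sub_le_norm_sub_add_norm_sub (sg r (conj q) t) (sg r 1 t) (sg r q t)
          rw [norm_sub_rev (sg r 1 t)] at h3
          linarith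
        · have h1 := mul_norm_sg_le hr hq t
          have h2 := mul_norm_sg_le hr hq' t
          rw [hδ] at h2
          have h3 := mul_le_mul_of_nonneg_left (norm_sub_le (sg r (conj q) t) (sg r q t))
            (by positivity : 0 ≤ 2 ^ t * ‖q - 1‖)
          linarith
    _ ≤ _ := by
        rw [← mul_sum]
        have := mul_le_mul_of_nonneg_left (sum_bump_le (norm_nonneg (q - 1)) U)
          (by positivity : 0 ≤ 6 * (4 * (lam r)⁻¹))
        linarith

theorem sum_sg_var {r : ℝ} (hr : 1 < r) {q : ℂ} (hq : ‖q‖ = 1) (U : ℕ) :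
    ∑ t ∈ range U, ‖sg r q (t + 1) - sg r q t‖ ≤ 37 * (lam r)⁻¹ := by
  have hl := lam_pos r
  calc _ ≤ ∑ t ∈ range U, (6 * (6 * (lam r)⁻¹) * ((2 ^ t * ‖q - 1‖) /
        ((1 + 2 ^ t * ‖q - 1‖) * (1 + 2 * (2 ^ t * ‖q - 1‖)))) +
          (lam r)⁻¹ * (1 / 2) ^ (t + 1)) := by
        refine sum_le_sum (fun t _ => ?_)
        rw [← sub_le_iff_le_add]
        refine le_bump (by positivity) (by positivity) ?_ ?_
        · have h1 := norm_sg_sub_one hr hq t
          have h2 := norm_sg_sub_one hr hq (t + 1)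
          have h3 := norm_sg_one_succ hr t
          have h4 := norm_sub_le_norm_sub_add_norm_sub (sg r q (t + 1)) (sg r 1 (t + 1)) (sg r q t)
          have h5 := norm_sub_le_norm_sub_add_norm_sub (sg r 1 (t + 1)) (sg r 1 t) (sg r q t)
          rw [norm_sub_rev (sg r 1 t)] at h5
          rw [pow_succ] at h2
          linarith
        · have h1 := mul_norm_sg_le hr hq t
          have h2 := mul_norm_sg_le hr hq (t + 1)
          have h3 := mul_le_mul_of_nonneg_left (norm_sub_le (sg r q (t + 1)) (sg r q t))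
            (by positivity : 0 ≤ 2 ^ t * ‖q - 1‖)
          have h4 : 0 ≤ 2 ^ t * ‖q - 1‖ * ((lam r)⁻¹ * (1 / 2) ^ (t + 1)) := by positivity
          have h5 : 0 ≤ (lam r)⁻¹ := by positivity
          rw [pow_succ] at h2
          linarith
    _ ≤ _ := by
        rw [sum_add_distrib, ← mul_sum, ← mul_sum]
        have h1 := mul_le_mul_of_nonneg_left (sum_bump_le (norm_nonneg (q - 1)) U)
          (by positivity : 0 ≤ 6 * (6 * (lam r)⁻¹))
        have h2 : ∑ t ∈ range U, (1 / 2 : ℝ) ^ (t + 1) ≤ 1 := by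
          have := sum_geometric_two_le U
          simp only [pow_succ, ← sum_mul]
          linarith
        have h3 := mul_le_mul_of_nonneg_left h2 (by positivity : 0 ≤ (lam r)⁻¹)
        linarith

/-- The dyadic level of an integer. -/
def lev (k : ℤ) : ℕ := Nat.size k.natAbs

theorem lev_eq_zero {k : ℤ} : lev k = 0 ↔ k = 0 := by
  rw [lev, Nat.size_eq_zero, Int.natAbs_eq_zero]

theorem lev_eq_succ {k : ℤ} {t : ℕ} : lev k = t + 1 ↔ 2 ^ t ≤ k.natAbs ∧ k.natAbs < 2 * 2 ^ t := by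
  rw [lev, ← pow_succ', ← Nat.size_le, ← Nat.lt_size]
  omega

/-- The generating polynomial of the normalised blocks of one sign. -/
noncomputable def piece (r pa : ℝ) (U : ℕ) (x : Circ) (s : Prop) : ℂ[X] := by
  classical
  exact ∑ k ∈ Icc (-((2 ^ U - 1 : ℕ) : ℤ)) (2 ^ U - 1 : ℕ),
    if (k < 0 ↔ s) then monomial (lev k) (a1 r pa k * fourier k x * (((lam r ^ lev k)⁻¹ : ℝ) : ℂ))
    else 0

theorem piece_coeff_zero (r pa : ℝ) (U : ℕ) (x : Circ) (s : Prop) [Decidable s] :
    (piece r pa U x s).coeff 0 = if s then 0 else 1 := by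
  rw [piece, finsetSum_coeff, sum_eq_single 0]
  · by_cases hs : s <;> simp [hs, lev, a1_zero]
  · intro k _ hk
    split_ifs
    · rw [coeff_monomial, if_neg (fun h => hk (lev_eq_zero.1 h))]
    · simp
  · intro h
    exact absurd (mem_Icc.2 (by omega)) h

theorem lt_of_block {t U n : ℕ} (h1 : 2 ^ t ≤ n) (h2 : n ≤ 2 ^ U - 1) : t < U := by
  by_contra h
  have := Nat.pow_le_pow_right (n := 2) two_pos (not_lt.1 h)
  have h3 : 0 < 2 ^ U := by positivity
  omega

theorem piece_coeff_pos (r pa : ℝ) (U : ℕ) (x : Circ) (t : ℕ) :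
    (piece r pa U x False).coeff (t + 1) = if t < U then om pa * sg r (fourier 1 x) t else 0 := by
  rw [piece, finsetSum_coeff]
  have h0 : 0 < 2 ^ t := by positivity
  split_ifs with ht
  · rw [sg, mul_sum, mul_sum]
    symm
    have h1 := Nat.pow_le_pow_right (n := 2) two_pos (Nat.succ_le_of_lt ht)
    rw [Nat.pow_succ] at h1
    refine sum_of_injOn (fun n : ℕ => (n : ℤ)) (fun a _ b _ h => by simpa using h) ?_ ?_ ?_
    · intro n hn
      simp only [mem_coe, mem_Ico, mem_Icc] at hn ⊢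
      omega
    · intro k _ hk
      split_ifs with h
      · rw [coeff_monomial, if_neg]
        intro h2
        rw [lev_eq_succ] at h2
        refine hk ⟨k.natAbs, by simp only [mem_coe, mem_Ico]; omega, ?_⟩
        simp only [iff_false] at h
        simp only
        omega
      · simp
    · intro n hn
      rw [mem_Ico] at hn
      have h2 : lev n = t + 1 := lev_eq_succ.2 (by simpa using hn)
      rw [if_pos (by simp), h2, coeff_monomial, if_pos rfl, a1_pos r pa (by omega), fourier_natCast]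
      ring
  · refine sum_eq_zero (fun k hk => ?_)
    split_ifs
    · rw [coeff_monomial, if_neg]
      intro h2
      rw [lev_eq_succ] at h2
      rw [mem_Icc] at hk
      exact ht (lt_of_block h2.1 (by omega))
    · simp

theorem piece_coeff_neg (r pa : ℝ) (U : ℕ) (x : Circ) (t : ℕ) :
    (piece r pa U x True).coeff (t + 1) =
      if t < U then conj (om pa) * sg r (conj (fourier 1 x)) t else 0 := by
  rw [piece, finsetSum_coeff]
  have h0 : 0 < 2 ^ t := by positivity
  split_ifs with ht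
  · rw [sg, mul_sum, mul_sum]
    symm
    have h1 := Nat.pow_le_pow_right (n := 2) two_pos (Nat.succ_le_of_lt ht)
    rw [Nat.pow_succ] at h1
    refine sum_of_injOn (fun n : ℕ => -(n : ℤ)) (fun a _ b _ h => by simpa using h) ?_ ?_ ?_
    · intro n hn
      simp only [mem_coe, mem_Ico, mem_Icc] at hn ⊢
      omega
    · intro k _ hk
      split_ifs with h
      · rw [coeff_monomial, if_neg]
        intro h2
        rw [lev_eq_succ] at h2
        refine hk ⟨k.natAbs, by simp only [mem_coe, mem_Ico]; omega, ?_⟩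
        simp only [iff_true] at h
        simp only
        omega
      · simp
    · intro n hn
      rw [mem_Ico] at hn
      have h2 : lev (-n) = t + 1 := lev_eq_succ.2 (by simpa using hn)
      rw [if_pos (by simp only [iff_true]; omega), h2, coeff_monomial, if_pos rfl,
        a1_neg r pa (by omega), fourier_neg, fourier_natCast, map_pow]
      ring
  · refine sum_eq_zero (fun k hk => ?_)
    split_ifs
    · rw [coeff_monomial, if_neg]
      intro h2
      rw [lev_eq_succ] at h2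
      rw [mem_Icc] at hk
      exact ht (lt_of_block h2.1 (by omega))
    · simp

/-- The sign independent part. -/
noncomputable def bet (r pa : ℝ) (U : ℕ) (x : Circ) : ℂ[X] := C (conj (om pa)) * piece r pa U x False

/-- The sign dependent part. -/
noncomputable def gam (r pa : ℝ) (U : ℕ) (x : Circ) : ℂ[X] :=
  C (om pa) * piece r pa U x True - C (conj (om pa)) * piece r pa U x False

theorem piece_false_eq (r pa : ℝ) (U : ℕ) (x : Circ) :
    piece r pa U x False = C (om pa) * bet r pa U x := by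
  rw [bet, ← mul_assoc, ← C_mul, om_mul_conj, C_1, one_mul]

theorem piece_true_eq (r pa : ℝ) (U : ℕ) (x : Circ) :
    piece r pa U x True = C (om pa) * C (zr pa) * (bet r pa U x + gam r pa U x) := by
  rw [bet, gam, add_sub_cancel, ← C_mul, ← conj_om, ← mul_assoc, ← C_mul, mul_comm (conj _),
    om_mul_conj, C_1, one_mul]

theorem one_le_inv_lam {r : ℝ} (hr : 1 < r) : 1 ≤ (lam r)⁻¹ :=
  (one_le_inv₀ (lam_pos r)).2 (lam_lt_one hr).le

theorem bet_coeff_le {r : ℝ} (hr : 1 < r) (pa : ℝ) (U : ℕ) (x : Circ) (i : ℕ) :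
    ‖(bet r pa U x).coeff i‖ ≤ 80 * (lam r)⁻¹ := by
  have h1 := one_le_inv_lam hr
  rw [bet, coeff_C_mul, norm_mul, Complex.norm_conj, norm_om, one_mul]
  rcases i with _ | t
  · rw [piece_coeff_zero]
    simp only [if_false, norm_one]
    linarith
  · rw [piece_coeff_pos]
    split_ifs
    · rw [norm_mul, norm_om, one_mul]
      linarith [norm_sg_le hr (norm_fourier 1 x) t]
    · simp only [norm_zero]
      linarith

theorem gam_N1_le {r : ℝ} (hr : 1 < r) (pa : ℝ) (U : ℕ) (x : Circ) (u : ℕ) :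
    N1 (gam r pa U x) u ≤ 80 * (lam r)⁻¹ := by
  have h1 := one_le_inv_lam hr
  rw [N1, sum_range_succ']
  have h2 : ‖(gam r pa U x).coeff 0‖ = 1 := by
    simp [gam, piece_coeff_zero, norm_om]
  have h3 : ∀ t, ‖(gam r pa U x).coeff (t + 1)‖ ≤
      ‖sg r (conj (fourier 1 x)) t - sg r (fourier 1 x) t‖ := by
    intro t
    rw [gam, coeff_sub, coeff_C_mul, coeff_C_mul, piece_coeff_pos, piece_coeff_neg]
    split_ifs
    · rw [← mul_assoc, ← mul_assoc, om_mul_conj, mul_comm (conj _), om_mul_conj, one_mul, one_mul]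
    · simp
  have h4 := (sum_le_sum (fun t (_ : t ∈ range u) => h3 t)).trans
    (sum_sg_conj hr (norm_fourier 1 x) u)
  linarith

theorem full_coeff_le {r : ℝ} (hr : 1 < r) (pa : ℝ) (U : ℕ) (x : Circ) (i : ℕ) :
    ‖(piece r pa U x False + piece r pa U x True).coeff i‖ ≤ 2 * (lam r)⁻¹ := by
  have h1 := one_le_inv_lam hr
  rw [coeff_add]
  rcases i with _ | t
  · simp only [piece_coeff_zero, if_false, if_true, add_zero, norm_one]
    linarith
  · rw [piece_coeff_pos, piece_coeff_neg]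
    split_ifs
    · refine (norm_add_le _ _).trans ?_
      rw [norm_mul, norm_mul, Complex.norm_conj, norm_om, one_mul, one_mul]
      linarith [norm_sg_le hr (norm_fourier 1 x) t,
        norm_sg_le hr (q := conj (fourier 1 x)) (by rw [Complex.norm_conj, norm_fourier]) t]
    · simp only [add_zero, norm_zero]
      linarith

theorem full_var_le {r : ℝ} (hr : 1 < r) (pa : ℝ) (U : ℕ) (x : Circ) (u : ℕ) :
    N1 ((1 - X) * (piece r pa U x False + piece r pa U x True)) u ≤ 90 * (lam r)⁻¹ := by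
  have h1 := one_le_inv_lam hr
  set b := piece r pa U x False + piece r pa U x True with hb
  have hc : ∀ s, ((1 - X) * b).coeff (s + 1) = b.coeff (s + 1) - b.coeff s := by
    intro s
    rw [sub_mul, one_mul, coeff_sub, coeff_X_mul]
  have h0 : ‖((1 - X) * b).coeff 0‖ ≤ 2 * (lam r)⁻¹ := by
    rw [sub_mul, one_mul, coeff_sub, coeff_X_mul_zero, sub_zero]
    exact full_coeff_le hr pa U x 0
  have hd : ∀ s, ‖((1 - X) * b).coeff (s + 1)‖ ≤ 4 * (lam r)⁻¹ := by
    intro s
    rw [hc]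
    linarith [norm_sub_le (b.coeff (s + 1)) (b.coeff s), full_coeff_le hr pa U x s,
      full_coeff_le hr pa U x (s + 1)]
  have hq' : ‖conj (fourier 1 x)‖ = 1 := by rw [Complex.norm_conj, norm_fourier]
  have h3 : ∀ t, ‖((1 - X) * b).coeff (t + 1 + 1)‖ ≤
      ‖sg r (fourier 1 x) (t + 1) - sg r (fourier 1 x) t‖ +
      ‖sg r (conj (fourier 1 x)) (t + 1) - sg r (conj (fourier 1 x)) t‖ +
      if t + 1 = U then 4 * (lam r)⁻¹ else 0 := by
    intro t
    by_cases h : t + 1 = U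
    · rw [if_pos h]
      exact (hd _).trans (le_add_of_nonneg_left (by positivity))
    · rw [if_neg h, add_zero, hc, hb, coeff_add, coeff_add, piece_coeff_pos, piece_coeff_pos,
        piece_coeff_neg, piece_coeff_neg]
      by_cases h' : t + 1 < U
      · simp only [if_pos h', if_pos (by omega : t < U)]
        rw [add_sub_add_comm, ← mul_sub, ← mul_sub]
        refine (norm_add_le _ _).trans ?_
        rw [norm_mul, norm_mul, Complex.norm_conj, norm_om, one_mul, one_mul]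
      · simp only [if_neg h', if_neg (by omega : ¬ t < U)]
        simp only [add_zero, sub_self, norm_zero]
        positivity
  have h4 : ∑ t ∈ range u, ‖((1 - X) * b).coeff (t + 1 + 1)‖ ≤ 78 * (lam r)⁻¹ := by
    refine (sum_le_sum (fun t _ => h3 t)).trans ?_
    rw [sum_add_distrib, sum_add_distrib]
    have h5 : ∑ t ∈ range u, (if t + 1 = U then 4 * (lam r)⁻¹ else 0) ≤ 4 * (lam r)⁻¹ := by
      rw [← sum_filter, sum_const, nsmul_eq_mul]
      refine mul_le_of_le_one_left (by positivity) ?_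
      have : ((range u).filter (fun t => t + 1 = U)).card ≤ 1 :=
        card_le_one.2 (fun a ha b hb => by
          rw [mem_filter] at ha hb
          omega)
      exact_mod_cast this
    linarith [sum_sg_var hr (norm_fourier 1 x) u, sum_sg_var hr hq' u]
  calc N1 ((1 - X) * b) u ≤ ∑ i ∈ range (u + 1 + 1), ‖((1 - X) * b : ℂ[X]).coeff i‖ :=
        sum_le_sum_of_subset_of_nonneg (range_subset_range.2 (Nat.le_succ (u + 1)))
          (fun _ _ _ => norm_nonneg _)
    _ ≤ _ := by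
        rw [sum_range_succ', sum_range_succ']
        linarith [hd 0]

end Pool.Agent.Lib.MP_bdf388_an.Ph
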