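import Mathlib
import Pool.Agent.Lib.MP_bdf388_an.Ph.Trace

set_option autoImplicit false

/-! Realising a fractional multiplier by an orthogonal projection. -/

namespace Pool.Agent.Lib.MP_bdf388_an.Ph

open MeasureTheory Filter Topology Finset
open scoped Real ENNReal ComplexConjugate

variable {d m : ℕ} {ph : Fin d → ℝ}

theorem kernel_bound {r : ℝ} (hr : 1 < r) (U : Fin m → Torus d → ℂ) (hUm : ∀ i, Measurable (U i))
    (C : ℝ) (hUb : ∀ i x, ‖U i x‖ ≤ C) (hU : ∀ i, MemLp (U i) 2 (torusMeasure d)) {B : ℝ}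
    (hB : ∀ x y, ‖Fc d r ph (x - y) -
      ∑ i, (∫ z, Fc d r ph (z - y) * conj (U i z) ∂(torusMeasure d)) * U i x‖ ≤ B)
    (f : Torus d → ℂ) (hf : f ∈ phaseClass d r ph 1) :
    eLpNorm (err (fun i => (hU i).toLp _) f) ⊤ (torusMeasure d) ≤ ENNReal.ofReal B := by
  obtain ⟨φ, hφ, hφ1, rfl⟩ := hf
  have hφi : Integrable φ (torusMeasure d) := memLp_one_iff_integrable.1 hφ
  have hφn : ∫ y, ‖φ y‖ ∂(torusMeasure d) ≤ 1 := by
    rw [eLpNorm_one_eq_lintegral_enorm, ← ofReal_integral_norm_eq_lintegral_enorm hφi] at hφ1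
    exact ENNReal.ofReal_le_one.1 hφ1
  have hc := continuous_Fc d ph hr
  obtain ⟨D, hD⟩ := isCompact_univ.exists_bound_of_continuousOn hc.continuousOn
  have hB0 : 0 ≤ B := (norm_nonneg _).trans (hB 0 0)
  let c : Fin m → Torus d → ℂ := fun i y =>
    ∫ z, Fc d r ph (z - y) * conj (U i z) ∂(torusMeasure d)
  have hG : ∀ i, Integrable (Function.uncurry fun z y : Torus d =>
      Fc d r ph (z - y) * conj (U i z) * φ y) ((torusMeasure d).prod (torusMeasure d)) := by
    intro i
    refine Integrable.bdd_mul (c := D * C) (hφi.comp_snd (torusMeasure d)) ?_ (ae_of_all _ ?_)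
    · refine Measurable.aestronglyMeasurable ?_
      refine Measurable.mul (hc.measurable.comp (measurable_fst.sub measurable_snd)) ?_
      exact Complex.continuous_conj.measurable.comp ((hUm i).comp measurable_fst)
    · intro p
      rw [norm_mul, Complex.norm_conj]
      exact mul_le_mul (hD _ trivial) (hUb _ _) (norm_nonneg _)
        ((norm_nonneg _).trans (hD 0 trivial))
  have hci : ∀ i, Integrable (fun y => c i y * φ y) (torusMeasure d) := by
    intro i
    have := (hG i).integral_prod_right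
    simp only [Function.uncurry_apply_pair, integral_mul_const] at this
    exact this
  have hcoef : ∀ i, ∫ z, (∫ y, (phaseMixed d r ph (z - y) : ℂ) * φ y ∂(torusMeasure d)) *
      conj (((hU i).toLp _) z) ∂(torusMeasure d) = ∫ y, c i y * φ y ∂(torusMeasure d) := by
    intro i
    have h1 := integral_integral_swap (hG i)
    simp only [integral_mul_const] at h1
    simp only [c]
    rw [← h1]
    refine integral_congr_ae ?_
    filter_upwards [(hU i).coeFn_toLp] with z hz
    rw [hz, ← integral_mul_const]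
    refine integral_congr_ae (ae_of_all _ (fun y => ?_))
    simp only [Fc]
    ring
  rw [eLpNorm_exponent_top]
  refine eLpNormEssSup_le_of_ae_bound ?_
  have hae : ∀ᵐ x ∂(torusMeasure d), ∀ i, ((hU i).toLp _) x = U i x :=
    ae_all_iff.2 (fun i => (hU i).coeFn_toLp)
  filter_upwards [hae] with x hx
  have h2 : err (fun i => (hU i).toLp _)
      (fun x => ∫ y, (phaseMixed d r ph (x - y) : ℂ) * φ y ∂(torusMeasure d)) x =
      ∫ y, (Fc d r ph (x - y) - ∑ i, c i y * U i x) * φ y ∂(torusMeasure d) := by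
    simp only [err, hcoef, hx, sub_mul, sum_mul]
    have h3 : ∀ i, Integrable (fun y => c i y * U i x * φ y) (torusMeasure d) := fun i =>
      ((hci i).mul_const (U i x)).congr (ae_of_all _ (fun y => by simp only; ring))
    rw [integral_sub (integrable_cont_mul (by fun_prop) hφi)
      (integrable_finsetSum _ (fun i _ => h3 i)), integral_finsetSum _ (fun i _ => h3 i)]
    congr 1
    refine sum_congr rfl (fun i _ => ?_)
    rw [← integral_mul_const]
    refine integral_congr_ae (ae_of_all _ (fun y => ?_))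
    simp only
    ring
  rw [h2]
  calc _ ≤ ∫ y, B * ‖φ y‖ ∂(torusMeasure d) := by
        refine norm_integral_le_of_norm_le (hφi.norm.const_mul B) (ae_of_all _ (fun y => ?_))
        rw [norm_mul]
        exact mul_le_mul_of_nonneg_right (hB x y) (norm_nonneg _)
    _ ≤ B := by
        rw [integral_const_mul]
        exact mul_le_of_le_one_right hB0 hφn

/-- An arc of the circle. -/
def arc (m : ℕ) (i : ℕ) : Set Circ :=
  {z | (AddCircle.equivIoc (2 * π) 0 z : ℝ) ∈
    Set.Ioc (2 * π * (i / m)) (2 * π * ((i + 1) / m))}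

theorem measurableSet_arc (m i : ℕ) : MeasurableSet (arc m i) :=
  (measurable_subtype_coe.comp (AddCircle.measurableEquivIoc (2 * π) 0).measurable)
    measurableSet_Ioc

theorem arc_disjoint {m i i' : ℕ} (hm : 0 < m) (h : i ≠ i') {z : Circ} (hz : z ∈ arc m i)
    (hz' : z ∈ arc m i') : False := by
  have key : ∀ a b : ℕ, a < b → z ∈ arc m a → z ∈ arc m b → False := by
    intro a b hab ha hb
    have h1 : ((a : ℝ) + 1) / m ≤ b / m := by
      gcongr
      exact_mod_cast hab
    have h2 := mul_le_mul_of_nonneg_left h1 Real.two_pi_pos.le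
    linarith [ha.2, hb.1]
  rcases lt_or_gt_of_ne h with h | h
  · exact key _ _ h hz hz'
  · exact key _ _ h hz' hz

theorem measure_arc {m i : ℕ} (hi : i < m) : μ1.real (arc m i) = 1 / m := by
  have hm : (0 : ℝ) < m := by exact_mod_cast (by omega : 0 < m)
  have h1 := AddCircle.add_projection_respects_measure (2 * π) 0 (measurableSet_arc m i)
  have hsub : Set.Ioc (2 * π * ((i : ℝ) / m)) (2 * π * ((i + 1) / m)) ⊆
      Set.Ioc 0 (0 + 2 * π) := by
    refine Set.Ioc_subset_Ioc (by positivity) ?_
    rw [zero_add]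
    refine mul_le_of_le_one_right Real.two_pi_pos.le ?_
    rw [div_le_one hm]
    exact_mod_cast hi
  have h2 : QuotientAddGroup.mk ⁻¹' (arc m i) ∩ Set.Ioc 0 (0 + 2 * π) =
      Set.Ioc (2 * π * ((i : ℝ) / m)) (2 * π * ((i + 1) / m)) := by
    ext x
    constructor
    · rintro ⟨hx, hx'⟩
      simp only [arc, Set.mem_preimage, Set.mem_ofPred_eq] at hx
      rwa [AddCircle.equivIoc_coe_eq hx'] at hx
    · intro hx
      refine ⟨?_, hsub hx⟩
      simp only [arc, Set.mem_preimage, Set.mem_ofPred_eq]
      rwa [AddCircle.equivIoc_coe_eq (hsub hx)]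
  rw [h2, AddCircle.volume_eq_smul_haarAddCircle, Measure.smul_apply, Real.volume_Ioc,
    smul_eq_mul] at h1
  have h3 := congrArg ENNReal.toReal h1
  have h4 : 2 * π * (((i : ℝ) + 1) / m) - 2 * π * (i / m) = 2 * π * (1 / m) := by
    field_simp
    ring
  rw [ENNReal.toReal_mul, ENNReal.toReal_ofReal Real.two_pi_pos.le, h4,
    ENNReal.toReal_ofReal (by positivity)] at h3
  exact mul_left_cancel₀ Real.two_pi_pos.ne' h3

/-- The half period shift. -/
noncomputable def tau (j0 : Fin d) (H : ℕ) : Torus d := Pi.single j0 ((π / H : ℝ) : Circ)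

theorem exists_packets (m : ℕ) (j0 : Fin d) {H : ℕ} (hH : 0 < H) :
    ∃ g : Fin m → Torus d → ℂ, (∀ i, Measurable (g i)) ∧ (∀ x, ∑ i, ‖g i x‖ ≤ √m) ∧
      (∀ i i', ∫ x, g i x * conj (g i' x) ∂(torusMeasure d) = if i = i' then 1 else 0) ∧
      (∀ i x, g i (x + tau j0 H) = - g i x) ∧ ∀ i, ∫ x, ‖g i x‖ ∂(torusMeasure d) ≤ 1 := by
  classical
  have hH' : (H : ℝ) ≠ 0 := by exact_mod_cast hH.ne'
  let S : Fin m → Set (Torus d) := fun i => (fun x => (2 * H : ℤ) • x j0) ⁻¹' arc m i
  have hmp : MeasurePreserving (fun x : Torus d => (2 * H : ℤ) • x j0) (torusMeasure d) μ1 :=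
    (Measure.measurePreserving_zsmul μ1 (n := 2 * H) (by omega)).comp
      (measurePreserving_eval (fun _ : Fin d => μ1) j0)
  have hS : ∀ i, MeasurableSet (S i) := fun i => hmp.measurable (measurableSet_arc m i)
  have hμS : ∀ i, (torusMeasure d).real (S i) = 1 / m := by
    intro i
    rw [← measure_arc i.2]
    exact hmp.measureReal_preimage (measurableSet_arc m i).nullMeasurableSet
  have hdisj : ∀ i i' x, x ∈ S i → x ∈ S i' → i = i' := by
    intro i i' x hx hx'
    by_contra h
    exact arc_disjoint (Fin.pos i) (fun h' => h (Fin.ext h')) hx hx'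
  let g : Fin m → Torus d → ℂ := fun i => (S i).indicator
    (fun x => ((√m : ℝ) : ℂ) * fourier H (x j0))
  have hnorm : ∀ i x, ‖g i x‖ = (S i).indicator (fun _ => √m) x := by
    intro i x
    simp only [g, Set.indicator]
    split_ifs
    · rw [norm_mul, norm_fourier, mul_one, Complex.norm_real, Real.norm_of_nonneg (by positivity)]
    · simp
  refine ⟨g, fun i => Measurable.indicator (by fun_prop) (hS i), ?_, ?_, ?_, ?_⟩
  · intro x
    simp only [hnorm]
    by_cases h : ∃ i, x ∈ S i
    · obtain ⟨i, hi⟩ := h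
      rw [sum_eq_single i, Set.indicator_of_mem hi]
      · intro i' _ hi'
        exact Set.indicator_of_notMem (fun h => hi' (hdisj _ _ x h hi)) _
      · simp
    · push Not at h
      simp [Set.indicator_of_notMem (h _)]
  · intro i i'
    split_ifs with h
    · subst h
      have hm : (0 : ℝ) < m := by exact_mod_cast Fin.pos i
      have : ∀ x, g i x * conj (g i x) = (((S i).indicator (fun _ => (m : ℝ)) x : ℝ) : ℂ) := by
        intro x
        rw [Complex.mul_conj, Complex.normSq_eq_norm_sq, hnorm]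
        simp only [Set.indicator]
        split_ifs <;> simp
      simp only [this]
      rw [integral_complex_ofReal, integral_indicator_const _ (hS i), hμS, smul_eq_mul]
      rw [one_div_mul_cancel hm.ne']
      simp
    · have : ∀ x, g i x * conj (g i' x) = 0 := by
        intro x
        by_cases hx : x ∈ S i
        · have : x ∉ S i' := fun h' => h (hdisj _ _ x hx h')
          simp [g, this]
        · simp [g, hx]
      simp [this]
  · intro i x
    have h1 : (x + tau j0 H) j0 = x j0 + ((π / H : ℝ) : Circ) := by simp [tau]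
    have h2 : (2 * H : ℤ) • ((π / H : ℝ) : Circ) = 0 := by
      rw [← QuotientAddGroup.mk_zsmul, zsmul_eq_mul]
      have : ((2 * H : ℤ) : ℝ) * (π / H) = 2 * π := by
        push_cast
        field_simp
      rw [this]
      exact AddCircle.coe_period _
    have h3 : x + tau j0 H ∈ S i ↔ x ∈ S i := by
      simp only [S, Set.mem_preimage, h1, smul_add, h2, add_zero]
    have h4 : fourier (H : ℤ) ((π / H : ℝ) : Circ) = -1 := by
      rw [fourier_coe, ← Complex.exp_pi_mul_I]
      congr 1
      have : (H : ℂ) ≠ 0 := by exact_mod_cast hH.ne'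
      push_cast
      field_simp
    simp only [g, Set.indicator, h3, h1, fourier_arg_add, h4]
    split_ifs <;> simp
  · intro i
    have hm : (1 : ℝ) ≤ m := by exact_mod_cast Fin.pos i
    simp only [hnorm]
    rw [integral_indicator_const _ (hS i), hμS, smul_eq_mul, one_div, inv_mul_le_iff₀ (by linarith),
      mul_one, Real.sqrt_le_left (by linarith)]
    nlinarith

theorem ek_tau_ne (j0 : Fin d) {H : ℕ} {k : Fin d → ℤ} (hk : (k j0).natAbs < H) :
    1 + ek k (tau j0 H) ≠ 0 := by
  have hH : (0 : ℝ) < H := by exact_mod_cast (by omega : 0 < H)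
  have h1 : ek k (tau j0 H) = Complex.exp (((k j0 * (π / H) : ℝ) : ℂ) * Complex.I) := by
    rw [ek, prod_eq_single j0]
    · simp only [tau, Pi.single_eq_same, fourier_coe]
      push_cast
      rfl
    · intro j _ hj
      simp only [tau, Pi.single_eq_of_ne hj, fourier_eval_zero]
    · simp
  intro h
  have h2 := congrArg Complex.re h
  rw [h1, Complex.add_re, Complex.exp_ofReal_mul_I_re, Complex.one_re, Complex.zero_re,
    ← Real.cos_abs] at h2
  have h3 : |(k j0 : ℝ) * (π / H)| < π := by
    rw [abs_mul, abs_of_pos (by positivity : 0 < π / H), ← mul_div_assoc, div_lt_iff₀ hH, mul_comm]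
    gcongr
    rw [← Int.cast_abs, ← Int.natCast_natAbs]
    exact_mod_cast hk
  have h4 := Real.cos_lt_cos_of_nonneg_of_le_pi (abs_nonneg _) le_rfl h3
  rw [Real.cos_pi] at h4
  linarith

theorem exists_shift_small {r : ℝ} (hr : 1 < r) (j0 : Fin d) {η : ℝ} (hη : 0 < η) (H0 : ℕ) :
    ∃ H, H0 < H ∧ ∀ z, ‖Fc d r ph z - Fc d r ph (z + tau j0 H)‖ ≤ η := by
  obtain ⟨δ, hδ, h⟩ := Metric.uniformContinuous_iff.1
    (CompactSpace.uniformContinuous_of_continuous (continuous_Fc d ph hr)) η hη
  obtain ⟨N, hN⟩ := exists_nat_gt (π / δ)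
  refine ⟨H0 + N + 1, by omega, fun z => ?_⟩
  rw [← dist_eq_norm]
  refine (h ?_).le
  rw [dist_self_add_right, tau, Pi.norm_single]
  refine QuotientAddGroup.norm_mk_le_norm.trans_lt ?_
  rw [Real.norm_of_nonneg (by positivity), div_lt_iff₀ (by positivity)]
  rw [div_lt_iff₀ hδ] at hN
  push_cast
  nlinarith [Nat.cast_nonneg (α := ℝ) H0]

theorem dilation (hd : 1 ≤ d) {r : ℝ} (hr : 1 < r) (m : ℕ) (Λ : Finset (Fin d → ℤ))
    (hΛ : Λ.card ≤ m) (p : (Fin d → ℤ) → ℝ) (hp0 : ∀ k, 0 ≤ p k) (hp1 : ∀ k, p k ≤ 1)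
    (hsupp : ∀ k, k ∉ Λ → p k = 0) {B β ε : ℝ}
    (hB : ∀ z, ‖Fc d r ph z - ∑ k ∈ Λ, (p k : ℂ) * Ak r ph k * ek k z‖ ≤ B) (hβ0 : 0 ≤ β)
    (hβ : ∀ k, 0 < p k → p k < 1 → ‖Ak r ph k‖ ≤ β) (hε : 0 < ε) :
    orthowidthLp d (phaseClass d r ph 1) ⊤ m ≤ ENNReal.ofReal (B + √m * β + ε) := by
  classical
  let j0 : Fin d := ⟨0, hd⟩
  have : Nonempty (Fin d) := ⟨j0⟩
  obtain ⟨Λ', hΛ', hcard⟩ := Infinite.exists_superset_card_eq Λ m hΛ
  let κ : Fin m → (Fin d → ℤ) := fun i => (Λ'.equivFinOfCardEq hcard).symm i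
  have hκ : Function.Injective κ :=
    Subtype.val_injective.comp (Λ'.equivFinOfCardEq hcard).symm.injective
  have hsum : ∀ F : (Fin d → ℤ) → ℂ, ∑ i, (p (κ i) : ℂ) * F (κ i) = ∑ k ∈ Λ, (p k : ℂ) * F k := by
    intro F
    rw [sum_subset hΛ' (fun k _ hk => by simp [hsupp k hk]), ← sum_coe_sort Λ']
    exact (Λ'.equivFinOfCardEq hcard).symm.sum_comp (fun k => (p k : ℂ) * F k)
  set η : ℝ := ε / (m + √m + 1) with hη
  have hη0 : 0 < η := by positivity
  obtain ⟨H, hH, hshift⟩ := exists_shift_small (ph := ph) hr j0 hη0 (univ.sup (fun i => (κ i j0).natAbs))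
  obtain ⟨g, hgm, hgs, hgo, hgt, hg1⟩ := exists_packets m j0 (H := H) (by omega)
  have hgb : ∀ i x, ‖g i x‖ ≤ √m := fun i x =>
    (single_le_sum (f := fun i => ‖g i x‖) (fun _ _ => norm_nonneg _) (mem_univ i)).trans (hgs x)
  have hgi : ∀ i, Integrable (g i) (torusMeasure d) := fun i =>
    Integrable.of_bound (hgm i).aestronglyMeasurable _ (ae_of_all _ (hgb i))
  have hanti : ∀ (h : Torus d → ℂ) i, ∫ x, h x * conj (g i x) ∂(torusMeasure d) =
      - ∫ x, h (x + tau j0 H) * conj (g i x) ∂(torusMeasure d) := by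
    intro h i
    rw [← integral_add_right_eq_self _ (tau j0 H), ← integral_neg]
    simp only [hgt, map_neg, mul_neg]
  have heg : ∀ i i', ∫ x, ek (κ i) x * conj (g i' x) ∂(torusMeasure d) = 0 := by
    intro i i'
    have h1 := hanti (ek (κ i)) i'
    simp only [ek_add, mul_comm _ (ek (κ i) (tau j0 H)), mul_assoc, integral_const_mul] at h1
    have h2 := ek_tau_ne j0 (H := H) (k := κ i)
      (lt_of_le_of_lt (le_sup (f := fun i => (κ i j0).natAbs) (mem_univ i)) hH)
    apply mul_left_cancel₀ h2
    linear_combination h1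
  have hge : ∀ i i', ∫ x, g i' x * conj (ek (κ i) x) ∂(torusMeasure d) = 0 := by
    intro i i'
    have := congrArg conj (heg i i')
    rw [← integral_conj] at this
    simpa [mul_comm] using this
  let R : Fin m → Torus d → ℂ := fun i y =>
    ∫ z, Fc d r ph (z - y) * conj (g i z) ∂(torusMeasure d)
  have hc := continuous_Fc d ph hr
  have hR : ∀ i y, ‖R i y‖ ≤ η := by
    intro i y
    have h1 := hanti (fun z => Fc d r ph (z - y)) i
    have h2 : 2 * R i y = ∫ z, (Fc d r ph (z - y) - Fc d r ph (z - y + tau j0 H)) * conj (g i z)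
        ∂(torusMeasure d) := by
      simp only [sub_mul]
      rw [integral_sub (integrable_cont_mul (by fun_prop) (integrable_conj (hgi i)))
        (integrable_cont_mul (by fun_prop) (integrable_conj (hgi i)))]
      simp only [R, ← add_sub_right_comm]
      linear_combination h1
    have h3 : ‖2 * R i y‖ ≤ η := by
      rw [h2]
      calc _ ≤ ∫ z, η * ‖g i z‖ ∂(torusMeasure d) := by
            refine norm_integral_le_of_norm_le ((hgi i).norm.const_mul η)
              (ae_of_all _ (fun z => ?_))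
            rw [norm_mul, Complex.norm_conj]
            exact mul_le_mul_of_nonneg_right (hshift _) (norm_nonneg _)
        _ ≤ η := by
            rw [integral_const_mul]
            exact mul_le_of_le_one_right hη0.le (hg1 i)
    rw [norm_mul, Complex.norm_two] at h3
    linarith [norm_nonneg (R i y)]
  let a : Fin m → ℝ := fun i => √(p (κ i))
  let b : Fin m → ℝ := fun i => √(1 - p (κ i))
  have ha2 : ∀ i, (a i : ℂ) * a i = p (κ i) := fun i => by
    rw [← Complex.ofReal_mul, Real.mul_self_sqrt (hp0 _)]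
  have hb2 : ∀ i, (b i : ℂ) * b i = 1 - p (κ i) := fun i => by
    rw [← Complex.ofReal_mul, Real.mul_self_sqrt (sub_nonneg.2 (hp1 _))]
    simp
  have ha1 : ∀ i, ‖(a i : ℂ)‖ ≤ 1 := fun i => by
    rw [Complex.norm_real, Real.norm_of_nonneg (Real.sqrt_nonneg _)]
    exact Real.sqrt_le_one.2 (hp1 _)
  have hb1 : ∀ i, ‖(b i : ℂ)‖ ≤ 1 := fun i => by
    rw [Complex.norm_real, Real.norm_of_nonneg (Real.sqrt_nonneg _)]
    exact Real.sqrt_le_one.2 (by linarith [hp0 (κ i)])
  let U : Fin m → Torus d → ℂ := fun i x => a i * ek (κ i) x + b i * g i x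
  have hUm : ∀ i, Measurable (U i) := fun i =>
    ((continuous_ek _).measurable.const_mul _).add ((hgm i).const_mul _)
  have hUb' : ∀ i x, ‖U i x‖ ≤ 1 + ‖g i x‖ := by
    intro i x
    refine (norm_add_le _ _).trans (add_le_add ?_ ?_)
    · rw [norm_mul, norm_ek, mul_one]
      exact ha1 i
    · rw [norm_mul]
      exact mul_le_of_le_one_left (norm_nonneg _) (hb1 i)
  have hUb : ∀ i x, ‖U i x‖ ≤ 1 + √m := fun i x => (hUb' i x).trans (by linarith [hgb i x])
  have hU : ∀ i, MemLp (U i) 2 (torusMeasure d) := fun i =>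
    MemLp.of_bound (hUm i).aestronglyMeasurable _ (ae_of_all _ (hUb i))
  have horth : Orthonormal ℂ (fun i => (hU i).toLp _) := by
    rw [orthonormal_iff_ite]
    intro i i'
    rw [L2.inner_def]
    have h1 : ∫ x, inner ℂ (((hU i).toLp _) x) (((hU i').toLp _) x) ∂(torusMeasure d) =
        ∫ x, ((a i' * a i) * (ek (κ i') x * conj (ek (κ i) x)) +
          (a i' * b i) * (ek (κ i') x * conj (g i x))) +
          ((b i' * a i) * (g i' x * conj (ek (κ i) x)) +
          (b i' * b i) * (g i' x * conj (g i x))) ∂(torusMeasure d) := by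
      refine integral_congr_ae ?_
      filter_upwards [(hU i).coeFn_toLp, (hU i').coeFn_toLp] with x hx hx'
      rw [hx, hx', RCLike.inner_apply]
      simp only [U, map_add, map_mul, Complex.conj_ofReal]
      ring
    have i1 : Integrable (fun x => ((a i' : ℂ) * a i) * (ek (κ i') x * conj (ek (κ i) x)))
        (torusMeasure d) := integrable_of_continuous (by fun_prop)
    have i2 : Integrable (fun x => ((a i' : ℂ) * b i) * (ek (κ i') x * conj (g i x)))
        (torusMeasure d) :=
      (integrable_cont_mul (continuous_ek _) (integrable_conj (hgi i))).const_mul _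
    have i3 : Integrable (fun x => ((b i' : ℂ) * a i) * (g i' x * conj (ek (κ i) x)))
        (torusMeasure d) :=
      ((integrable_cont_mul (h := fun x => conj (ek (κ i) x)) (by fun_prop) (hgi i')).congr
        (ae_of_all _ (fun x => mul_comm _ _))).const_mul _
    have i4 : Integrable (fun x => ((b i' : ℂ) * b i) * (g i' x * conj (g i x)))
        (torusMeasure d) :=
      ((integrable_conj (hgi i)).bdd_mul (hgm i').aestronglyMeasurable
        (ae_of_all _ (hgb i'))).const_mul _
    rw [h1, integral_add (by exact i1.add i2) (by exact i3.add i4), integral_add i1 i2,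
      integral_add i3 i4]
    simp only [integral_const_mul, integral_ek_mul_conj, heg, hge, hgo, hκ.eq_iff]
    by_cases h : i = i'
    · subst h
      simp only [if_true, ha2, hb2]
      ring
    · simp [h, Ne.symm h]
  refine (iInf₂_le _ horth).trans (iSup₂_le (fun f hf => ?_))
  refine kernel_bound hr U hUm _ hUb hU ?_ f hf
  intro x y
  have hcoef : ∀ i, ∫ z, Fc d r ph (z - y) * conj (U i z) ∂(torusMeasure d) =
      a i * (Ak r ph (κ i) * conj (ek (κ i) y)) + b i * R i y := by
    intro i
    rw [← shift_Fc_coeff d ph hr, ← integral_const_mul, ← integral_const_mul, ← integral_add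
      (integrable_of_continuous (by fun_prop))
      ((integrable_cont_mul (by fun_prop) (integrable_conj (hgi i))).const_mul _)]
    refine integral_congr_ae (ae_of_all _ (fun z => ?_))
    simp only [U, map_add, map_mul, Complex.conj_ofReal]
    ring
  have hsplit : Fc d r ph (x - y) -
      ∑ i, (∫ z, Fc d r ph (z - y) * conj (U i z) ∂(torusMeasure d)) * U i x =
      (Fc d r ph (x - y) - ∑ k ∈ Λ, (p k : ℂ) * Ak r ph k * ek k (x - y)) -
        ∑ i, ((a i * b i * Ak r ph (κ i)) * conj (ek (κ i) y)) * g i x -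
        ∑ i, (b i * R i y) * U i x := by
    have := hsum (fun k => Ak r ph k * ek k (x - y))
    simp only [mul_assoc (p _ : ℂ), ← this, sub_sub, ← sum_add_distrib, hcoef]
    congr 1
    refine sum_congr rfl (fun i _ => ?_)
    rw [← ha2, ek_sub]
    simp only [U]
    ring
  rw [hsplit]
  have h2 : ‖∑ i, ((a i * b i * Ak r ph (κ i)) * conj (ek (κ i) y)) * g i x‖ ≤ √m * β := by
    refine (norm_sum_le _ _).trans ?_
    calc _ ≤ ∑ i, β * ‖g i x‖ := by
          refine sum_le_sum (fun i _ => ?_)
          rw [norm_mul, norm_mul, Complex.norm_conj, norm_ek, mul_one]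
          refine mul_le_mul_of_nonneg_right ?_ (norm_nonneg _)
          rcases (hp0 (κ i)).lt_or_eq with h0 | h0
          · rcases (hp1 (κ i)).lt_or_eq with h1 | h1
            · rw [norm_mul, norm_mul]
              exact (mul_le_of_le_one_left (norm_nonneg _)
                (mul_le_one₀ (ha1 i) (norm_nonneg _) (hb1 i))).trans (hβ _ h0 h1)
            · simpa [b, h1] using hβ0
          · simpa [a, ← h0] using hβ0
      _ ≤ √m * β := by
          rw [← mul_sum, mul_comm]
          exact mul_le_mul_of_nonneg_right (hgs x) hβ0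
  have h3 : ‖∑ i, (b i * R i y) * U i x‖ ≤ ε := by
    refine (norm_sum_le _ _).trans ?_
    calc _ ≤ ∑ i, η * (1 + ‖g i x‖) := by
          refine sum_le_sum (fun i _ => ?_)
          rw [norm_mul, norm_mul]
          refine mul_le_mul ?_ (hUb' i x) (norm_nonneg _) hη0.le
          exact (mul_le_of_le_one_left (norm_nonneg _) (hb1 i)).trans (hR i y)
      _ ≤ η * (m + √m + 1) := by
          rw [← mul_sum, sum_add_distrib]
          simp only [sum_const, card_univ, Fintype.card_fin, nsmul_eq_mul, mul_one]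
          exact mul_le_mul_of_nonneg_left (by linarith [hgs x]) hη0.le
      _ = ε := by
          rw [hη]
          field_simp
  calc _ ≤ _ := norm_sub_le _ _
    _ ≤ _ := add_le_add ((norm_sub_le _ _).trans (add_le_add (hB _) h2)) h3

end Pool.Agent.Lib.MP_bdf388_an.Ph
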