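import Mathlib
import Pool.Agent.Lib.MP_bdf388_an.Eval

set_option autoImplicit false

/-! Two-sided bounds for the integer `logGain d a`. -/

namespace Pool.Agent.Lib.MP_bdf388_an.Ph

open Finset Polynomial
open scoped Real

theorem admissible_mul {d e M N : ℕ} {a : ℝ} (h1 : Admissible d a M) (h2 : Admissible e a N) :
    Admissible (d + e) a (M + N) := by
  obtain ⟨p, hp, hp', hp''⟩ := h1
  obtain ⟨q, hq, hq', hq''⟩ := h2
  have hp0 : p ≠ 0 := fun h => by simpa [h] using hp' 0 (Nat.zero_le _)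
  have hq0 : q ≠ 0 := fun h => by simpa [h] using hq' 0 (Nat.zero_le _)
  have hpn : ∀ j, 0 ≤ p.coeff j := fun j => by
    rcases le_or_gt j d with h | h
    · exact (hp' j h).le
    · rw [coeff_eq_zero_of_natDegree_lt (by omega)]
  have hqn : ∀ j, 0 ≤ q.coeff j := fun j => by
    rcases le_or_gt j e with h | h
    · exact (hq' j h).le
    · rw [coeff_eq_zero_of_natDegree_lt (by omega)]
  refine ⟨p * q, by rw [natDegree_mul hp0 hq0, hp, hq], fun j hj => ?_, ?_⟩
  · rw [coeff_mul]
    refine sum_pos' (fun x _ => mul_nonneg (hpn _) (hqn _))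
      ⟨(min j d, j - min j d), by simp, mul_pos (hp' _ (by simp)) (hq' _ (by simp only; omega))⟩
  · rw [Polynomial.map_mul, rootMultiplicity_mul]
    · exact add_le_add hp'' hq''
    · exact mul_ne_zero (by rwa [Ne, Polynomial.map_eq_zero]) (by rwa [Ne, Polynomial.map_eq_zero])

theorem div_le_logGain {d k : ℕ} {a : ℝ} (hk : 2 ≤ k) (h : Real.cos (π * a) < Real.cos (π / k)) :
    d / k ≤ logGain d a := by
  classical
  have h1 : Admissible k a 1 := by
    obtain ⟨p, hp, hp', hp''⟩ := admissible_logGain k a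
    exact ⟨p, hp, hp', (one_le_logGain_iff.2 ⟨hk, h⟩).trans hp''⟩
  have h2 : ∀ n : ℕ, Admissible (d % k + k * n) a n := by
    intro n
    induction n with
    | zero => simpa using admissible_zero (d % k) a
    | succ n ih =>
      have := admissible_mul ih h1
      rwa [add_assoc, ← Nat.mul_succ] at this
  have h3 := h2 (d / k)
  rw [Nat.mod_add_div] at h3
  refine Nat.le_findGreatest ?_ h3
  have : d / k ≤ d / 2 := Nat.div_le_div_left hk two_pos
  omega

theorem weighted_root_sum {d : ℕ} {z e : ℂ} (c : ℕ → ℂ) (n : ℕ) : ∀ P : ℂ[X], P.natDegree ≤ d →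
    (X - C z) ^ (n + 1) ∣ P →
    ∑ j ∈ range (d + 1), P.coeff j * z ^ j * ∏ i ∈ range n, (c i - j * e) = 0 := by
  induction n with
  | zero =>
    intro P hP h
    rw [zero_add, pow_one, dvd_iff_isRoot, IsRoot, eval_eq_sum_range' (Nat.lt_succ_of_le hP)] at h
    simpa using h
  | succ n ih =>
    intro P hP h
    have hc : ∀ j, (C (c n) * P - C e * (X * derivative P)).coeff j = P.coeff j * (c n - j * e) := by
      intro j
      rw [coeff_sub, coeff_C_mul, coeff_C_mul]
      rcases j with _ | j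
      · simp [mul_comm]
      · rw [coeff_X_mul, coeff_derivative]
        push_cast
        ring
    have h1 := ih (C (c n) * P - C e * (X * derivative P)) ?_ ?_
    · rw [← h1]
      refine sum_congr rfl (fun j _ => ?_)
      rw [hc, prod_range_succ]
      ring
    · rw [natDegree_le_iff_coeff_eq_zero]
      intro N hN
      rw [hc, coeff_eq_zero_of_natDegree_lt (by omega), zero_mul]
    · refine dvd_sub (Dvd.dvd.mul_left ((pow_dvd_pow _ (Nat.le_succ _)).trans h) _)
        (Dvd.dvd.mul_left (Dvd.dvd.mul_left ?_ _) _)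
      simpa using pow_sub_one_dvd_derivative_of_pow_dvd h

theorem sin_mul_prod_nonneg (n : ℕ) : ∀ t : ℝ, 0 ≤ t → t ≤ (n + 1) * π →
    0 ≤ Real.sin t * ∏ i ∈ range n, (((i : ℝ) + 1) * π - t) := by
  induction n with
  | zero =>
    intro t h0 h1
    simpa using Real.sin_nonneg_of_nonneg_of_le_pi h0 (by simpa using h1)
  | succ n ih =>
    intro t h0 h1
    rcases le_total t ((n + 1) * π) with h | h
    · rw [prod_range_succ, ← mul_assoc]
      exact mul_nonneg (ih t h0 h) (sub_nonneg.2 h)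
    · have h2 : Real.sin t = (-1) ^ (n + 1) * Real.sin (t - (n + 1) * π) := by
        rw [← Real.sin_add_nat_mul_pi]
        congr 1
        push_cast
        ring
      have h3 : ∏ i ∈ range (n + 1), (((i : ℝ) + 1) * π - t) =
          (-1) ^ (n + 1) * ∏ i ∈ range (n + 1), (t - ((i : ℝ) + 1) * π) := by
        have h4 := prod_neg (s := range (n + 1)) (fun i : ℕ => t - ((i : ℝ) + 1) * π)
        rw [card_range] at h4
        rw [← h4]
        simp only [neg_sub]
      rw [h2, h3, mul_mul_mul_comm, ← mul_pow]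
      simp only [mul_neg, mul_one, neg_neg, one_pow, one_mul]
      refine mul_nonneg (Real.sin_nonneg_of_nonneg_of_le_pi (sub_nonneg.2 h) ?_)
        (prod_nonneg (fun i hi => sub_nonneg.2 (le_trans ?_ h)))
      · push_cast at h1
        linarith
      · have : (i : ℝ) ≤ n := by exact_mod_cast Nat.lt_succ_iff.1 (mem_range.1 hi)
        have := Real.pi_pos
        gcongr

theorem logGain_mul_pi_lt {d : ℕ} {a : ℝ} (h : Real.cos (π * a) ≠ -1) (hM : 1 ≤ logGain d a) :
    logGain d a * π < d * Real.arccos (Real.cos (π * a)) := by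
  classical
  obtain ⟨θ, s, h0, hπ, hs, hc, hj⟩ := zr_pow a
  rw [← hc, Real.arccos_cos h0 hπ]
  obtain ⟨hd, hlt⟩ := one_le_logGain_iff.1 hM
  have hθ0 : 0 < θ := by
    refine h0.lt_of_ne (fun h1 => ?_)
    rw [← hc, ← h1, Real.cos_zero] at hlt
    linarith [Real.cos_le_one (π / d)]
  have hθπ : θ < π := by
    refine hπ.lt_of_ne (fun h1 => h ?_)
    rw [← hc, h1, Real.cos_pi]
  by_contra hle
  rw [not_lt] at hle
  obtain ⟨p, hdeg, hpos, hroot⟩ := admissible_logGain d a
  obtain ⟨n, hn⟩ : ∃ n, logGain d a = n + 1 := ⟨logGain d a - 1, by omega⟩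
  rw [hn] at hle hroot
  have hP0 : p.map (algebraMap ℝ ℂ) ≠ 0 :=
    (rootMultiplicity_pos'.1 (lt_of_lt_of_le (Nat.succ_pos n) hroot)).1
  have h1 := weighted_root_sum (d := d) (e := θ) (fun i => (((i : ℝ) + 1) * π : ℝ)) n _
    (by rw [natDegree_map, hdeg]) ((le_rootMultiplicity_iff hP0).1 hroot)
  change ∑ j ∈ range (d + 1), _ * zr a ^ j * _ = 0 at h1
  have h2 : ∀ j : ℕ, ((p.map (algebraMap ℝ ℂ)).coeff j * zr a ^ j *
      ∏ i ∈ range n, (((((i : ℝ) + 1) * π : ℝ) : ℂ) - j * θ)).im =
      s * (p.coeff j * (Real.sin (j * θ) * ∏ i ∈ range n, (((i : ℝ) + 1) * π - j * θ))) := by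
    intro j
    have h3 : ∏ i ∈ range n, (((((i : ℝ) + 1) * π : ℝ) : ℂ) - j * θ) =
        ((∏ i ∈ range n, (((i : ℝ) + 1) * π - j * θ) : ℝ) : ℂ) := by
      push_cast
      rfl
    rw [h3, Complex.im_mul_ofReal, coeff_map, Complex.coe_algebraMap, Complex.im_ofReal_mul,
      (hj j).2]
    ring
  have h4 := congrArg Complex.im h1
  rw [Complex.im_sum, Complex.zero_im] at h4
  simp only [h2] at h4
  rw [← mul_sum] at h4
  refine absurd ((mul_eq_zero.1 h4).resolve_left hs) (ne_of_gt ?_)
  refine sum_pos' (fun j hj' => ?_) ⟨1, mem_range.2 (by omega), ?_⟩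
  · have hjd : j ≤ d := by have := mem_range.1 hj'; omega
    refine mul_nonneg (hpos j hjd).le (sin_mul_prod_nonneg n _ (by positivity) ?_)
    have : (j : ℝ) ≤ d := by exact_mod_cast hjd
    push_cast at hle
    nlinarith
  · rw [Nat.cast_one, one_mul]
    refine mul_pos (hpos 1 (by omega)) (mul_pos (Real.sin_pos_of_pos_of_lt_pi hθ0 hθπ)
      (prod_pos (fun i _ => ?_)))
    have : (0 : ℝ) ≤ i := Nat.cast_nonneg i
    nlinarith [Real.pi_pos]

end Pool.Agent.Lib.MP_bdf388_an.Ph
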