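import Mathlib
import Pool.Agent.Lib.MP_bdf388_an.Ph.Blocks
import Pool.Agent.Lib.MP_bdf388_an.Ph.Dilation

set_option autoImplicit false

/-! The upper bound. -/

namespace Pool.Agent.Lib.MP_bdf388_an.Ph

open Finset Polynomial Filter Topology MeasureTheory
open scoped Real ComplexConjugate ENNReal

variable {d : ℕ} {ph : Fin d → ℝ}

/-- The dyadic level of a frequency. -/
def level (k : Fin d → ℤ) : ℕ := ∑ j, lev (k j)

theorem prod_monomial_sum (R : ℕ) (φ : Fin d → ℤ → ℂ) (u : ℕ) :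
    (∏ j, ∑ k ∈ Icc (-(R : ℤ)) R, monomial (lev k) (φ j k)).coeff u =
      ∑ k ∈ box d R, if level k = u then ∏ j, φ j (k j) else 0 := by
  rw [prod_univ_sum, box, finsetSum_coeff]
  refine sum_congr rfl (fun k _ => ?_)
  simp only [← C_mul_X_pow_eq_monomial, prod_mul_distrib, ← map_prod, prod_pow_eq_pow_sum]
  rw [C_mul_X_pow_eq_monomial, coeff_monomial]
  rfl

/-- The normalised term of the Fourier series. -/
noncomputable def nt (r : ℝ) (ph : Fin d → ℝ) (x : Torus d) (k : Fin d → ℤ) : ℂ :=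
  ∏ j, a1 r (ph j) (k j) * fourier (k j) (x j) * (((lam r ^ lev (k j))⁻¹ : ℝ) : ℂ)

theorem term_eq (r : ℝ) (ph : Fin d → ℝ) (x : Torus d) (k : Fin d → ℤ) :
    Ak r ph k * ek k x = ((lam r ^ level k : ℝ) : ℂ) * nt r ph x k := by
  have hl : (lam r : ℂ) ≠ 0 := by exact_mod_cast (lam_pos r).ne'
  simp only [Ak, ek, nt, level, ← prod_pow_eq_pow_sum, Complex.ofReal_prod, ← prod_mul_distrib]
  refine prod_congr rfl (fun j _ => ?_)
  push_cast
  field_simp

theorem coeff_pieces (r : ℝ) (ph : Fin d → ℝ) (U : ℕ) (x : Torus d) (J : Finset (Fin d)) (u : ℕ) :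
    (∏ j, piece r (ph j) U (x j) (j ∈ J)).coeff u = ∑ k ∈ box d (2 ^ U - 1),
      if level k = u then (if neg k = J then nt r ph x k else 0) else 0 := by
  classical
  have h : ∀ j, piece r (ph j) U (x j) (j ∈ J) = ∑ k ∈ Icc (-((2 ^ U - 1 : ℕ) : ℤ)) (2 ^ U - 1 : ℕ),
      monomial (lev k) (if (k < 0 ↔ j ∈ J) then
        a1 r (ph j) k * fourier k (x j) * (((lam r ^ lev k)⁻¹ : ℝ) : ℂ) else 0) := by
    intro j
    rw [piece]
    refine sum_congr rfl (fun k _ => ?_)
    split_ifs <;> simp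
  simp only [h]
  rw [prod_monomial_sum]
  refine sum_congr rfl (fun k _ => ?_)
  rw [prod_ite_zero]
  congr 2
  simp [neg, Finset.ext_iff]

theorem weighted_pieces (r : ℝ) (ph : Fin d → ℝ) (U : ℕ) (x : Torus d) (w : Finset (Fin d) → ℂ) (u : ℕ) :
    ∑ J : Finset (Fin d), w J * (∏ j, piece r (ph j) U (x j) (j ∈ J)).coeff u =
      ∑ k ∈ box d (2 ^ U - 1), if level k = u then w (neg k) * nt r ph x k else 0 := by
  simp only [coeff_pieces, mul_sum]
  rw [sum_comm]
  refine sum_congr rfl (fun k _ => ?_)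
  split_ifs <;> simp

theorem piece_mem (r pa : ℝ) (U : ℕ) (x : Circ) (s : Prop) [Decidable s] :
    piece r pa U x s = if s then piece r pa U x True else piece r pa U x False := by
  split_ifs with h
  · rw [eq_true h]
  · rw [eq_false h]

theorem full_pieces (r : ℝ) (ph : Fin d → ℝ) (U : ℕ) (x : Torus d) (u : ℕ) :
    (∏ j, (piece r (ph j) U (x j) False + piece r (ph j) U (x j) True)).coeff u =
      ∑ k ∈ box d (2 ^ U - 1), if level k = u then nt r ph x k else 0 := by
  have h := weighted_pieces r ph U x (fun _ => 1) u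
  simp only [one_mul] at h
  rw [← h, ← finsetSum_coeff]
  congr 1
  simp only [add_comm (piece r _ U _ False)]
  rw [prod_add, powerset_univ]
  refine sum_congr rfl (fun J _ => ?_)
  simp only [piece_mem r _ U _ (_ ∈ J), prod_ite, filter_mem_eq_inter, univ_inter]
  congr 2
  ext j
  simp

theorem cancel_bound {r : ℝ} (hr : 1 < r) {M : ℕ} (hM : M < d) (c : Finset (Fin d) → ℝ)
    (hc : ∀ I : Finset (Fin d), I.card < M →
      ∑ J : Finset (Fin d) with I ⊆ J, (c J : ℂ) * zJ ph J = 0) :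
    ∃ K : ℝ, 0 ≤ K ∧ ∀ (U : ℕ) (x : Torus d) (u : ℕ),
      ‖∑ J : Finset (Fin d), (c J : ℂ) * (∏ j, piece r (ph j) U (x j) (j ∈ J)).coeff u‖ ≤
        K * ((u : ℝ) + 1) ^ (d - 1 - M) := by
  let κ : Finset (Fin d) → ℂ := fun I =>
    ∑ J : Finset (Fin d) with I ⊆ J, (c J : ℂ) * zJ ph J
  have hl := lam_pos r
  refine ⟨(∑ I, ‖κ I‖) * (80 * (lam r)⁻¹) ^ d, by positivity, fun U x u => ?_⟩
  let P : Finset (Fin d) → ℂ[X] := fun I => ∏ j, if j ∈ I then gam r (ph j) U (x j) else bet r (ph j) U (x j)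
  have h1 : ∀ J : Finset (Fin d), ∏ j, piece r (ph j) U (x j) (j ∈ J) =
      C (omP ph * zJ ph J) * ∑ I : Finset (Fin d), if I ⊆ J then P I else 0 := by
    intro J
    have h2 : ∀ j, piece r (ph j) U (x j) (j ∈ J) = C (om (ph j)) * (if j ∈ J then C (zr (ph j)) else 1) *
        ((if j ∈ J then gam r (ph j) U (x j) else 0) + bet r (ph j) U (x j)) := by
      intro j
      rw [piece_mem]
      split_ifs
      · rw [piece_true_eq, add_comm]
      · rw [piece_false_eq, mul_one, zero_add]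
    simp only [h2, prod_mul_distrib]
    rw [prod_add, powerset_univ]
    congr 1
    · simp [omP, zJ, map_prod]
    · refine sum_congr rfl (fun I _ => ?_)
      rw [prod_ite_zero]
      simp only [P, prod_ite, filter_mem_eq_inter, univ_inter, ← subset_iff]
      split_ifs with h
      · congr 2
        ext j
        simp
      · simp
  have h3 : ∑ J : Finset (Fin d), (c J : ℂ) * (∏ j, piece r (ph j) U (x j) (j ∈ J)).coeff u =
      omP ph * ∑ I : Finset (Fin d), κ I * (P I).coeff u := by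
    simp only [h1, coeff_C_mul, finsetSum_coeff, mul_sum, κ, sum_mul, sum_filter]
    rw [sum_comm]
    refine sum_congr rfl (fun I _ => sum_congr rfl (fun J _ => ?_))
    split_ifs
    · ring
    · simp
  rw [h3, norm_mul, norm_omP, one_mul, mul_assoc, sum_mul]
  refine (norm_sum_le _ _).trans (sum_le_sum (fun I _ => ?_))
  rw [norm_mul]
  by_cases hI : I.card < M
  · have : κ I = 0 := hc I hI
    simp [this]
  refine mul_le_mul_of_nonneg_left ?_ (norm_nonneg _)
  refine coeff_prod_le hM _ I (not_lt.1 hI) (fun j i => ?_) (fun j hj u => ?_) u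
  · split_ifs
    · exact (coeff_le_N1 _ _).trans (gam_N1_le hr _ U _ _)
    · exact bet_coeff_le hr _ U _ _
  · rw [if_pos hj]
    exact gam_N1_le hr _ U _ _

theorem diff_bound {r : ℝ} (hr : 1 < r) {M : ℕ} (hM : M < d) (U : ℕ) (x : Torus d) (u : ℕ) :
    ‖((1 - X) ^ M * ∏ j, (piece r (ph j) U (x j) False + piece r (ph j) U (x j) True)).coeff u‖ ≤
      (90 * (lam r)⁻¹) ^ d * ((u : ℝ) + 1) ^ (d - 1 - M) := by
  have hl := lam_pos r
  obtain ⟨I, -, hI⟩ := exists_subset_card_eq (s := (univ : Finset (Fin d))) (n := M)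
    (by simpa using hM.le)
  have h1 : (1 - X) ^ M * ∏ j, (piece r (ph j) U (x j) False + piece r (ph j) U (x j) True) =
      ∏ j, (if j ∈ I then 1 - X else 1) * (piece r (ph j) U (x j) False + piece r (ph j) U (x j) True) := by
    rw [prod_mul_distrib]
    simp [hI]
  rw [h1]
  refine coeff_prod_le hM _ I hI.ge (fun j i => ?_) (fun j hj u => ?_) u
  · split_ifs
    · exact (coeff_le_N1 _ _).trans (full_var_le hr _ U _ _)
    · rw [one_mul]
      refine (full_coeff_le hr _ U _ _).trans ?_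
      gcongr
      norm_num
  · rw [if_pos hj]
    exact full_var_le hr _ U _ _

theorem card_lev_le (R s : ℕ) :
    ((Icc (-(R : ℤ)) R).filter (fun k => lev k = s)).card ≤ 2 ^ s := by
  rcases s with _ | t
  · refine card_le_one.2 (fun a ha b hb => ?_)
    rw [mem_filter, lev_eq_zero] at ha hb
    rw [ha.2, hb.2]
  · refine (card_le_card (t := Ioc (-((2 * 2 ^ t : ℕ) : ℤ)) (-((2 ^ t : ℕ) : ℤ)) ∪
      Ico ((2 ^ t : ℕ) : ℤ) ((2 * 2 ^ t : ℕ) : ℤ)) (fun k hk => ?_)).trans
      ((card_union_le _ _).trans ?_)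
    · rw [mem_filter, lev_eq_succ] at hk
      rw [mem_union, mem_Ioc, mem_Ico]
      omega
    · rw [Int.card_Ioc, Int.card_Ico, Nat.pow_succ]
      omega

theorem card_level_le (hd : 1 ≤ d) (R u : ℕ) :
    (((box d R).filter (fun k => level k = u)).card : ℝ) ≤ 2 ^ u * ((u : ℝ) + 1) ^ (d - 1) := by
  have h := coeff_prod_le (M := 0) hd
    (fun _ : Fin d => ∑ k ∈ Icc (-(R : ℤ)) R, monomial (lev k) (((2 : ℂ) ^ lev k)⁻¹)) ∅ le_rfl
    (C := 1) (fun _ s => ?_) (by simp) u
  · rw [prod_monomial_sum R (fun _ k => ((2 : ℂ) ^ lev k)⁻¹), ← sum_filter,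
      sum_congr rfl (g := fun _ => ((2 : ℂ) ^ u)⁻¹)] at h
    · simp only [sum_const, nsmul_eq_mul, norm_mul, Complex.norm_natCast, norm_inv, norm_pow,
        Complex.norm_ofNat, one_pow, one_mul, Nat.sub_zero] at h
      rwa [mul_inv_le_iff₀ (by positivity), mul_comm] at h
    · intro k hk
      rw [← (mem_filter.1 hk).2, prod_inv_distrib, prod_pow_eq_pow_sum, level]
  · simp only [finsetSum_coeff, coeff_monomial]
    rw [← sum_filter, sum_congr rfl (g := fun _ => ((2 : ℂ) ^ s)⁻¹)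
      (fun k hk => by rw [(mem_filter.1 hk).2])]
    simp only [sum_const, nsmul_eq_mul, norm_mul, Complex.norm_natCast, norm_inv, norm_pow,
      Complex.norm_ofNat]
    rw [mul_inv_le_iff₀ (by positivity), one_mul]
    exact_mod_cast card_lev_le R s

theorem card_low_le (hd : 1 ≤ d) (R N : ℕ) :
    (((box d R).filter (fun k => level k < N)).card : ℝ) ≤ 2 ^ N * ((N : ℝ) + 1) ^ (d - 1) := by
  induction N with
  | zero => simp
  | succ N ih =>
    have h1 : (box d R).filter (fun k => level k < N + 1) =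
        (box d R).filter (fun k => level k < N) ∪ (box d R).filter (fun k => level k = N) := by
      rw [← filter_or]
      exact filter_congr (fun k _ => by omega)
    have h2 : (((box d R).filter (fun k => level k < N + 1)).card : ℝ) ≤
        ((box d R).filter (fun k => level k < N)).card +
          ((box d R).filter (fun k => level k = N)).card := by
      rw [h1]
      exact_mod_cast card_union_le _ _
    have h3 := card_level_le hd R N
    have h4 : ((N : ℝ) + 1) ^ (d - 1) ≤ (((N + 1 : ℕ) : ℝ) + 1) ^ (d - 1) := by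
      gcongr
      omega
    have h5 := mul_le_mul_of_nonneg_left h4 (by positivity : (0 : ℝ) ≤ 2 ^ N)
    rw [pow_succ]
    linarith

theorem rho_lt_one {r : ℝ} (hr : 1 < r) : rho r < 1 := by
  have := lam_lt_one hr
  rw [lam] at this
  linarith [rho_pos r]

theorem norm_Ak_le {r : ℝ} (hr : 1 < r) (k : Fin d → ℤ) :
    ‖Ak r ph k‖ ≤ (rho r)⁻¹ ^ d * rho r ^ level k := by
  have hρ := rho_pos r
  have : (rho r)⁻¹ ^ d * rho r ^ level k = ∏ j, (rho r)⁻¹ * rho r ^ lev (k j) := by
    rw [prod_mul_distrib, prod_pow_eq_pow_sum, level]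
    simp
  rw [this, Ak, norm_prod]
  refine prod_le_prod (fun _ _ => norm_nonneg _) (fun j _ => ?_)
  rcases h : lev (k j) with _ | t
  · rw [lev_eq_zero.1 h, a1_zero, norm_one, pow_zero, mul_one]
    exact (one_le_inv₀ hρ).2 (rho_lt_one hr).le
  · have h1 := lev_eq_succ.1 h
    have h2 : 0 < 2 ^ t := by positivity
    rw [norm_a1 r _ (by omega), pow_succ', ← mul_assoc, inv_mul_cancel₀ hρ.ne', one_mul,
      ← natpow_rpow]
    exact rpow_anti hr h2 h1.1

theorem mem_box_of_level {k : Fin d → ℤ} {U : ℕ} (h : level k ≤ U) : k ∈ box d (2 ^ U - 1) := by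
  rw [box, Fintype.mem_piFinset]
  intro j
  have h1 : lev (k j) ≤ U :=
    (single_le_sum (f := fun j => lev (k j)) (fun _ _ => Nat.zero_le _) (mem_univ j)).trans h
  rw [lev, Nat.size_le] at h1
  rw [mem_Icc]
  omega

theorem tendsto_box {r : ℝ} (hr : 1 < r) (x : Torus d) :
    Tendsto (fun U : ℕ => ∑ k ∈ box d (2 ^ U - 1), Ak r ph k * ek k x) atTop (𝓝 (Fc d r ph x)) := by
  simp only [Ak, sum_box_prod _ (fun j => a1 r (ph j)), Fc_eq]
  refine tendsto_finsetProd _ (fun j _ => ?_)
  refine (hasSum_bernoulli hr (ph j) (x j)).comp (tendsto_atTop_finset_of_monotone ?_ ?_)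
  · intro U V h
    have := Nat.pow_le_pow_right (n := 2) two_pos h
    exact Icc_subset_Icc (by omega) (by omega)
  · intro k
    have := Nat.lt_two_pow_self (n := k.natAbs)
    exact ⟨k.natAbs, mem_Icc.2 (by omega)⟩

theorem multiplier_bound (hd : 1 ≤ d) {r : ℝ} (hr : 1 < r) (ph : Fin d → ℝ) :
    ∃ (L : ℕ) (K : ℝ), 0 ≤ K ∧ ∀ n : ℕ, ∃ p : (Fin d → ℤ) → ℝ, (∀ k, 0 ≤ p k) ∧ (∀ k, p k ≤ 1) ∧
      (∀ k, n + L ≤ level k → p k = 0) ∧ (∀ k, level k < n → p k = 1) ∧
      ∀ (U : ℕ) (x : Torus d), ‖∑ k ∈ box d (2 ^ U - 1), ((1 - p k : ℝ) : ℂ) * (Ak r ph k * ek k x)‖ ≤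
        K * (lam r ^ n * ((n : ℝ) + 1) ^ (d - 1 - phaseGain ph)) := by
  set M := phaseGain ph with hMdef
  have hM : M < d := by have := phaseGain_le ph; omega
  have hl := lam_pos r
  have hl1 := lam_lt_one hr
  obtain ⟨c, hcpos, hc⟩ := exists_weights (admissible_phaseGain ph)
  obtain ⟨K1, hK1, hcancel⟩ := cancel_bound hr hM c hc
  obtain ⟨jmin, hjmin, hmin⟩ := exists_min_image univ c ⟨∅, mem_univ _⟩
  obtain ⟨jmax, hjmax, hmax⟩ := exists_max_image univ c ⟨∅, mem_univ _⟩
  have hcmin : 0 < c jmin := hcpos _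
  have hcmax : 0 < c jmax := hcpos _
  set α : ℝ := lam r ^ M / (2 * c jmax) with hα
  have hα0 : 0 < α := by positivity
  obtain ⟨L, e, C, hML, he, hC, htail⟩ := tail_correction hl hl1 M (d - 1 - M)
    (η := α * c jmin) (by positivity)
  refine ⟨L, C * (90 * (lam r)⁻¹) ^ d + α * (M * (K1 * ((M : ℝ) + 1) ^ (d - 1 - M))),
    by positivity, fun n => ?_⟩
  let a : (Fin d → ℤ) → ℝ := fun k =>
    if n + L ≤ level k then 1 else if n ≤ level k ∧ level k < n + M then
      (lam r ^ (level k - n))⁻¹ * (α * c (neg k) - e (level k - n)) else 0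
  have hneg : ∀ k : Fin d → ℤ, neg k ∈ (univ : Finset (Finset (Fin d))) := fun k => mem_univ _
  have ha0 : ∀ k, 0 ≤ a k := by
    intro k
    simp only [a]
    split_ifs with h1 h2
    · exact zero_le_one
    · have h3 := (abs_le.1 (he (level k - n) (by omega))).2
      have h4 := mul_le_mul_of_nonneg_left (hmin _ (hneg k)) hα0.le
      exact mul_nonneg (by positivity) (by linarith)
    · exact le_rfl
  have ha1 : ∀ k, a k ≤ 1 := by
    intro k
    simp only [a]
    split_ifs with h1 h2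
    · exact le_rfl
    · have h3 := (abs_le.1 (he (level k - n) (by omega))).1
      have h4 := mul_le_mul_of_nonneg_left (hmax _ (hneg k)) hα0.le
      have h5 := mul_le_mul_of_nonneg_left (hmax _ hjmin) hα0.le
      have h6 : α * c jmax * 2 = lam r ^ M := by rw [hα]; field_simp
      have h7 : lam r ^ M ≤ lam r ^ (level k - n) := pow_le_pow_of_le_one hl.le hl1.le (by omega)
      rw [inv_mul_le_iff₀ (by positivity)]
      linarith
    · exact zero_le_one
  refine ⟨fun k => 1 - a k, fun k => sub_nonneg.2 (ha1 k), fun k => by linarith [ha0 k],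
    fun k hk => by simp [a, hk], fun k hk => ?_, fun U x => ?_⟩
  · simp only [a]
    rw [if_neg (by omega), if_neg (by omega), sub_zero]
  let G : ℕ → ℂ := fun v =>
    (∏ j, (piece r (ph j) U (x j) False + piece r (ph j) U (x j) True)).coeff (n + v)
  let H : ℕ → ℂ := fun i =>
    ∑ J : Finset (Fin d), (c J : ℂ) * (∏ j, piece r (ph j) U (x j) (j ∈ J)).coeff (n + i)
  let s : ℂ := ∑ k ∈ box d (2 ^ U - 1),
    if n + L ≤ level k then ((lam r ^ (level k - n) : ℝ) : ℂ) * nt r ph x k else 0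
  have hs : HasSum (fun v => ((lam r ^ (v + L) : ℝ) : ℂ) * G (v + L)) s := by
    simp only [G, full_pieces, mul_sum]
    refine hasSum_sum (fun k _ => ?_)
    split_ifs with h
    · convert hasSum_single (level k - (n + L)) ?_ using 1
      · rw [if_pos (by omega)]
        congr 3
        omega
      · intro v hv
        rw [if_neg (by omega), mul_zero]
    · convert hasSum_zero using 2 with v
      rw [if_neg (by omega), mul_zero]
  have h1 := htail G ((90 * (lam r)⁻¹) ^ d) n (by positivity) (fun w => by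
    rw [fwdDiff_coeff]
    exact diff_bound hr hM U x _) s hs
  have h2 : ‖∑ i ∈ range M, H i‖ ≤ M * (K1 * ((M : ℝ) + 1) ^ (d - 1 - M)) *
      ((n : ℝ) + 1) ^ (d - 1 - M) := by
    refine (norm_sum_le _ _).trans ((sum_le_card_nsmul _ _
      (K1 * ((M : ℝ) + 1) ^ (d - 1 - M) * ((n : ℝ) + 1) ^ (d - 1 - M)) (fun i hi => ?_)).trans
      (le_of_eq ?_))
    · refine (hcancel U x _).trans ?_
      rw [mul_assoc, ← mul_pow]
      gcongr
      have : (i : ℝ) ≤ M := by exact_mod_cast (mem_range.1 hi).le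
      push_cast
      nlinarith [Nat.cast_nonneg (α := ℝ) n, Nat.cast_nonneg (α := ℝ) M]
    · rw [card_range, nsmul_eq_mul]
      ring
  have h3 : ∑ k ∈ box d (2 ^ U - 1), ((1 - (1 - a k) : ℝ) : ℂ) * (Ak r ph k * ek k x) =
      ((lam r ^ n : ℝ) : ℂ) * ((s - ∑ i ∈ range M, (e i : ℂ) * G i) +
        α * ∑ i ∈ range M, H i) := by
    simp only [G, H, full_pieces, weighted_pieces r ph U x (fun j => (c j : ℂ)), s, mul_sum]
    rw [sum_comm (s := range M), sum_comm (s := range M), ← sum_sub_distrib, ← sum_add_distrib,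
      mul_sum]
    refine sum_congr rfl (fun k _ => ?_)
    rw [term_eq, sub_sub_cancel]
    have hl' : (lam r : ℂ) ≠ 0 := by exact_mod_cast hl.ne'
    simp only [a]
    split_ifs with h4 h5
    · rw [sum_eq_zero (fun i hi => by rw [if_neg (by have := mem_range.1 hi; omega), mul_zero]),
        sum_eq_zero (fun i hi => by rw [if_neg (by have := mem_range.1 hi; omega), mul_zero])]
      have : lam r ^ level k = lam r ^ n * lam r ^ (level k - n) := by
        rw [← pow_add]
        congr 1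
        omega
      rw [this]
      push_cast
      ring
    · rw [sum_eq_single (level k - n) (fun i _ hi => by rw [if_neg (by omega), mul_zero])
          (fun h => absurd (mem_range.2 (by omega)) h),
        sum_eq_single (level k - n) (fun i _ hi => by rw [if_neg (by omega), mul_zero])
          (fun h => absurd (mem_range.2 (by omega)) h), if_pos (by omega), if_pos (by omega)]
      have : lam r ^ level k = lam r ^ n * lam r ^ (level k - n) := by
        rw [← pow_add]
        congr 1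
        omega
      rw [this]
      push_cast
      field_simp
      ring
    · rw [sum_eq_zero (fun i hi => by rw [if_neg (by have := mem_range.1 hi; omega), mul_zero]),
        sum_eq_zero (fun i hi => by rw [if_neg (by have := mem_range.1 hi; omega), mul_zero])]
      simp
  rw [h3, norm_mul, Complex.norm_real, Real.norm_of_nonneg (by positivity), mul_left_comm]
  refine mul_le_mul_of_nonneg_left ((norm_add_le _ _).trans ?_) (by positivity)
  rw [norm_mul, Complex.norm_real, Real.norm_of_nonneg hα0.le, add_mul, mul_assoc α]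
  exact add_le_add h1 (mul_le_mul_of_nonneg_left h2 hα0.le)

theorem upper_bound (hd : 1 ≤ d) {r : ℝ} (hr : 1 < r) (ph : Fin d → ℝ) :
    ∃ C0 K : ℝ, 0 < C0 ∧ 0 < K ∧ ∀ n m : ℕ, C0 * (2 ^ n * ((n : ℝ) + 1) ^ (d - 1)) ≤ m →
      orthowidthLp d (phaseClass d r ph 1) ⊤ m ≤ ENNReal.ofReal
        (K * (lam r ^ n * ((n : ℝ) + 1) ^ (d - 1 - phaseGain ph) + √m * rho r ^ n)) := by
  obtain ⟨L, K, hK, h⟩ := multiplier_bound hd hr ph
  have hl := lam_pos r
  have hρ := rho_pos r
  refine ⟨2 ^ L * ((L : ℝ) + 1) ^ (d - 1), K + 1 + (rho r)⁻¹ ^ d, by positivity, by positivity,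
    fun n m hm => ?_⟩
  obtain ⟨p, hp0, hp1, hpz, hpo, hb⟩ := h n
  let Λ := (box d (2 ^ (n + L) - 1)).filter (fun k => level k < n + L)
  have hΛ : Λ.card ≤ m := by
    have h1 := card_low_le hd (2 ^ (n + L) - 1) (n + L)
    have h2 : (2 : ℝ) ^ (n + L) * (((n + L : ℕ) : ℝ) + 1) ^ (d - 1) ≤
        2 ^ L * ((L : ℝ) + 1) ^ (d - 1) * (2 ^ n * ((n : ℝ) + 1) ^ (d - 1)) := by
      rw [mul_mul_mul_comm, ← pow_add, ← mul_pow, add_comm L n]
      gcongr
      push_cast
      nlinarith [Nat.cast_nonneg (α := ℝ) n, Nat.cast_nonneg (α := ℝ) L]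
    exact_mod_cast (h1.trans h2).trans hm
  have hsupp : ∀ k, k ∉ Λ → p k = 0 := by
    intro k hk
    refine hpz k (not_lt.1 (fun h => hk (mem_filter.2 ⟨mem_box_of_level h.le, h⟩)))
  have hB : ∀ z, ‖Fc d r ph z - ∑ k ∈ Λ, (p k : ℂ) * Ak r ph k * ek k z‖ ≤
      K * (lam r ^ n * ((n : ℝ) + 1) ^ (d - 1 - phaseGain ph)) := by
    intro z
    refine le_of_tendsto (((tendsto_box hr z).sub_const _).norm) ?_
    filter_upwards [eventually_ge_atTop (n + L)] with U hU
    refine le_of_eq_of_le (congrArg norm ?_) (hb U z)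
    have hsub : Λ ⊆ box d (2 ^ U - 1) := fun k hk =>
      mem_box_of_level (((mem_filter.1 hk).2 : level k < n + L).le.trans hU)
    rw [sum_subset hsub (fun k _ hk => by simp [hsupp k hk]), ← sum_sub_distrib]
    refine sum_congr rfl (fun k _ => ?_)
    push_cast
    ring
  refine (dilation hd hr m Λ hΛ p hp0 hp1 hsupp hB (β := (rho r)⁻¹ ^ d * rho r ^ n)
    (ε := lam r ^ n * ((n : ℝ) + 1) ^ (d - 1 - phaseGain ph)) (by positivity) ?_
    (by positivity)).trans (ENNReal.ofReal_le_ofReal ?_)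
  · intro k _ hk
    refine (norm_Ak_le hr k).trans (mul_le_mul_of_nonneg_left ?_ (by positivity))
    exact pow_le_pow_of_le_one hρ.le (rho_lt_one hr).le
      (not_lt.1 (fun h => hk.ne (hpo k h)))
  · have h1 : 0 ≤ lam r ^ n * ((n : ℝ) + 1) ^ (d - 1 - phaseGain ph) := by positivity
    have h2 : 0 ≤ √m * rho r ^ n := by positivity
    have h3 : 0 ≤ (rho r)⁻¹ ^ d := by positivity
    nlinarith [mul_nonneg hK h2, mul_nonneg h3 h1]

theorem trivial_bound (hd : 1 ≤ d) {r : ℝ} (hr : 1 < r) (ph : Fin d → ℝ) :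
    ∃ K : ℝ, 0 < K ∧ ∀ m : ℕ, orthowidthLp d (phaseClass d r ph 1) ⊤ m ≤ ENNReal.ofReal K := by
  obtain ⟨D, hD⟩ := isCompact_univ.exists_bound_of_continuousOn (continuous_Fc d ph hr).continuousOn
  have hD0 : 0 ≤ D := (norm_nonneg _).trans (hD 0 trivial)
  refine ⟨D + 1, by positivity, fun m => ?_⟩
  have := dilation hd hr m ∅ (by simp) (fun _ => 0) (fun _ => le_rfl) (fun _ => zero_le_one)
    (fun _ _ => rfl) (B := D) (β := 0) (ε := 1) (fun z => by simpa using hD z trivial) le_rfl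
    (fun _ h => absurd h (lt_irrefl _)) one_pos
  simpa using this

end Pool.Agent.Lib.MP_bdf388_an.Ph
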